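import Pool.Agent.Work.MP_8f87b2_h69.Sort

set_option autoImplicit false

namespace Pool.OddHop

open Finset

variable {h cap g n : ℕ} [NeZero h]

lemma pair_le' (s : St h cap g n) (i : ZMod (2 * h)) : s.c i + s.c (i + 1) ≤ n := by
  have h1 := sum_pairs s (par i)
  have h2 := Finset.single_le_sum (f := fun i : ZMod (2 * h) => s.c i + s.c (i + 1))
    (s := univ.filter (fun j : ZMod (2 * h) => par j = par i))
    (fun _ _ => Nat.zero_le _) (mem_filter.2 ⟨mem_univ i, rfl⟩)
  exact h2.trans h1.le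

lemma sumz_two (i : ZMod (2 * h)) (F G : ZMod (2 * h) → ℕ)
    (hFG : ∀ j, j ≠ i → j ≠ i + 1 → F j = G j) :
    ∑ j, F j + (G i + G (i + 1)) = ∑ j, G j + (F i + F (i + 1)) := by
  have h1 : ∀ f : ZMod (2 * h) → ℕ, ∑ j, f j
      = f i + (f (i + 1) + ∑ j ∈ (univ.erase i).erase (i + 1), f j) := by
    intro f
    rw [← Finset.add_sum_erase univ f (mem_univ i),
      ← Finset.add_sum_erase (univ.erase i) f (mem_erase.2 ⟨add_one_ne i, mem_univ _⟩)]
  have h2 : ∑ j ∈ (univ.erase i).erase (i + 1), F j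
      = ∑ j ∈ (univ.erase i).erase (i + 1), G j := by
    apply Finset.sum_congr rfl
    intro j hj
    rw [mem_erase, mem_erase] at hj
    exact hFG j hj.2.1 hj.1
  rw [h1 F, h1 G, h2]
  omega

section Rel

variable {R : St h cap g n → St h cap g n → Prop}

/-- raise the label as often as we like -/
lemma lab_iter [NeZero g] (P : St h cap g n → Prop) (hR : Equivalence R)
    (hup : ∀ s, P s → ∃ s', R s s' ∧ P s' ∧ s'.lab 0 = s.lab 0 + 1) (s : St h cap g n)
    (hs : P s) (l : ZMod g) : ∃ s', R s s' ∧ P s' ∧ s'.lab 0 = l := by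
  have key : ∀ k : ℕ, ∃ s', R s s' ∧ P s' ∧ s'.lab 0 = s.lab 0 + (k : ZMod g) := by
    intro k
    induction k with
    | zero => exact ⟨s, hR.refl s, hs, by simp⟩
    | succ k ih =>
      obtain ⟨s1, h1, h2, h3⟩ := ih
      obtain ⟨s2, h4, h5, h6⟩ := hup s1 h2
      exact ⟨s2, hR.trans h1 h4, h5, by rw [h6, h3, Nat.cast_succ]; ring⟩
  obtain ⟨s', h1, h2, h3⟩ := key (l - s.lab 0).val
  refine ⟨s', h1, h2, ?_⟩
  rw [h3, ZMod.natCast_zmod_val]
  ring

/-- `cap = 1` -/
theorem conn_one (hn : Odd n) (hg : g ∣ n) {R : St h 1 g n → St h 1 g n → Prop}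
    (hR : Equivalence R) (hshift : ∀ s, R s s.shift) (hstep : ∀ s p, s.Av p → R s (s.tog p))
    (s s' : St h 1 g n) : R s s' := by
  have hg0 : NeZero g := ⟨by
    rintro rfl
    rw [zero_dvd_iff] at hg
    rw [hg] at hn
    exact absurd hn (by decide)⟩
  have hhalf : ∀ (s : St h 1 g n) i, s.c i / 2 = 0 := by
    intro s i
    have := s.hcap i
    omega
  have hcap : Odd 1 := odd_one
  have hup : ∀ s : St h 1 g n, True → ∃ s', R s s' ∧ True ∧ s'.lab 0 = s.lab 0 + 1 := by
    intro s _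
    obtain ⟨t, hr, hl, hc, hs⟩ := exists_sorted hcap hR hstep s
    refine ⟨t.shift, hR.trans hr (hshift t), trivial, ?_⟩
    have h0 : t.c 0 = 1 := by
      have h1 := t.hcap 0
      by_contra hcon
      have h2 : t.c ((0 : ℕ) : ZMod (2 * h)) % 2 = 0 := by
        rw [Nat.cast_zero]; omega
      have h3 : t.rs = 0 := by
        unfold St.rs
        rw [sum_zmod (fun i => t.c i % 2)]
        apply Finset.sum_eq_zero
        intro k hk
        exact sorted_mono hs (Nat.zero_le k) (mem_range.1 hk) h2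
      have h4 := rs_eq t
      rw [h3, Finset.sum_eq_zero (fun i _ => hhalf t i)] at h4
      rw [← h4] at hn
      exact absurd hn (by decide)
    change t.lab (0 + 1) = _
    rw [t.hlab, h0, hl, Nat.cast_one]
  obtain ⟨t, hr, _, hl⟩ := lab_iter (fun _ => True) hR hup s trivial (s'.lab 0)
  exact hR.trans hr (same_pairs hcap hR hstep (fun i => by rw [hhalf, hhalf]) hl.symm)

/-- choose the place of the only token -/
lemma place_token (hcap : Odd cap) (hcn : n ≤ cap) (hg : g ∣ n) (hR : Equivalence R)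
    (hstep : ∀ s p, s.Av p → R s (s.tog p)) (s : St h cap g n) (h1 : s.rs = 1)
    (τ : ZMod (2 * h)) : ∃ s2, R s s2 ∧ s2.lab 0 = s.lab 0 ∧
      ∀ i, s2.c i = 2 * (s.c i / 2) + if i = τ then 1 else 0 := by
  have hsum : ∑ i, (2 * (s.c i / 2) + if i = τ then 1 else 0) = n := by
    rw [Finset.sum_add_distrib, ← Finset.mul_sum, Finset.sum_ite_eq' univ τ]
    have := rs_eq s
    simp only [mem_univ, if_true]
    omega
  have hle : ∀ i, (2 * (s.c i / 2) + if i = τ then 1 else 0) ≤ cap := by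
    intro i
    have h2 := Finset.single_le_sum (f := fun i => 2 * (s.c i / 2) + if i = τ then 1 else 0)
      (s := univ) (fun _ _ => Nat.zero_le _) (mem_univ i)
    exact h2.trans (hsum.le.trans hcn)
  refine ⟨mkSt _ hle hsum hg (s.lab 0), ?_, mkSt_lab0 _ hle hsum hg _, fun _ => rfl⟩
  apply same_pairs hcap hR hstep
  · intro i
    change (2 * (s.c i / 2) + if i = τ then 1 else 0) / 2 = s.c i / 2
    split_ifs <;> omega
  · exact mkSt_lab0 _ hle hsum hg _

/-- merge the tokens until one is left -/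
lemma merge_tokens (hn : Odd n) (hcap : Odd cap) (hh : 2 ≤ h) (hcn : n ≤ cap)
    (hR : Equivalence R) (hstep : ∀ s p, s.Av p → R s (s.tog p)) (s : St h cap g n) :
    ∃ s', R s s' ∧ s'.rs = 1 := by
  induction hN : s.rs using Nat.strong_induction_on generalizing s with
  | _ N ih =>
    have hodd : s.rs % 2 = 1 := by
      have := rs_eq s
      obtain ⟨q, hq⟩ := hn
      omega
    by_cases h1 : s.rs = 1
    · exact ⟨s, hR.refl s, h1⟩
    · obtain ⟨t, hr, hl, hc, hs⟩ := exists_sorted hcap hR hstep s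
      have hrs : t.rs = s.rs := rs_congr hc
      have hk1 : t.c ((1 : ℕ) : ZMod (2 * h)) % 2 = 1 := by
        by_contra hcon
        have hz : t.c ((1 : ℕ) : ZMod (2 * h)) % 2 = 0 := by omega
        have h3 : t.rs ≤ ∑ i ∈ range (2 * h), (if i < 1 then 1 else 0) := by
          unfold St.rs
          rw [sum_zmod (fun i => t.c i % 2)]
          apply Finset.sum_le_sum
          intro i hi
          split_ifs with hi1
          · omega
          · rw [sorted_mono hs (show 1 ≤ i by omega) (mem_range.1 hi) hz]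
        rw [sum_ind (by omega)] at h3
        omega
      have hk0 : t.c ((0 : ℕ) : ZMod (2 * h)) % 2 = 1 := by
        by_contra hcon
        have hz : t.c ((0 : ℕ) : ZMod (2 * h)) % 2 = 0 := by omega
        have := sorted_mono hs (Nat.zero_le 1) (by omega) hz
        omega
      rw [Nat.cast_zero] at hk0
      rw [Nat.cast_one] at hk1
      have ha : t.Av 0 := by
        have := pair_le' t 0
        unfold St.Av avXY
        rw [zero_add] at this ⊢
        right
        omega
      have hx : (t.tog 0).c 0 = t.c 0 - 1 := by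
        rw [tog_c_self ha]; unfold nx; rw [if_neg (by omega)]
      have hy : (t.tog 0).c 1 = t.c 1 + 1 := by
        have h7 := tog_c_succ ha
        rw [zero_add] at h7
        rw [h7]; unfold ny; rw [if_neg (by omega)]
      have h5 := sumz_two 0 (fun j => (t.tog 0).c j % 2) (fun j => t.c j % 2)
        (fun j e1 e2 => by rw [tog_c_other t e1 e2])
      simp only [zero_add] at h5
      rw [hx, hy] at h5
      have h6 : (t.tog 0).rs < N := by
        unfold St.rs at hN hrs ⊢
        have e3 : (t.c 0 - 1) % 2 = 0 := by omega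
        have e4 : (t.c 1 + 1) % 2 = 0 := by omega
        rw [e3, e4, hk0, hk1] at h5
        omega
      obtain ⟨s', hr', hs'⟩ := ih _ h6 (t.tog 0) rfl
      exact ⟨s', hR.trans hr (hR.trans (hstep t 0 ha) hr'), hs'⟩

/-- move one pair one place to the right -/
lemma move_pair (hcap : Odd cap) (hh : 2 ≤ h) (hcn : n ≤ cap) (hg : g ∣ n)
    (hR : Equivalence R) (hstep : ∀ s p, s.Av p → R s (s.tog p)) (s : St h cap g n)
    (h1 : s.rs = 1) (p : ZMod (2 * h)) (hp : 1 ≤ s.c (p + 1) / 2) :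
    ∃ s', R s s' ∧ s'.rs = 1 ∧ s'.c (p + 1) / 2 + 1 = s.c (p + 1) / 2 ∧
      s'.c (p + 1 + 1) / 2 = s.c (p + 1 + 1) / 2 + 1 ∧
      ∀ i, i ≠ p + 1 → i ≠ p + 1 + 1 → s'.c i / 2 = s.c i / 2 := by
  obtain ⟨t, hr, hl, hc⟩ := place_token hcap hcn hg hR hstep s h1 (p + 1 + 1)
  have n1 : p ≠ p + 1 + 1 := (two_ne hh p).symm
  have n2 : p + 1 ≠ p + 1 + 1 := (add_one_ne (p + 1)).symm
  have n3 : p ≠ p + 1 := (add_one_ne p).symm
  have c0 : t.c p = 2 * (s.c p / 2) := by rw [hc, if_neg n1, add_zero]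
  have c1 : t.c (p + 1) = 2 * (s.c (p + 1) / 2) := by rw [hc, if_neg n2, add_zero]
  have c2 : t.c (p + 1 + 1) = 2 * (s.c (p + 1 + 1) / 2) + 1 := by rw [hc, if_pos rfl]
  have hpl := pair_le' t p
  have hpl2 := pair_le' t (p + 1)
  have ha : t.Av p := by
    unfold St.Av avXY
    left
    omega
  have hx : (t.tog p).c p = t.c p + 1 := by
    rw [tog_c_self ha]; unfold nx; rw [if_pos (by omega)]
  have hy : (t.tog p).c (p + 1) = t.c (p + 1) - 1 := by
    rw [tog_c_succ ha]; unfold ny; rw [if_pos (by omega)]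
  have hz : (t.tog p).c (p + 1 + 1) = t.c (p + 1 + 1) :=
    tog_c_other t n1.symm n2.symm
  have hb : (t.tog p).Av (p + 1) := by
    unfold St.Av avXY
    right
    rw [hy, hz]
    omega
  have hx' : ((t.tog p).tog (p + 1)).c (p + 1) = t.c (p + 1) - 1 - 1 := by
    rw [tog_c_self hb, hy]; unfold nx; rw [if_neg (by omega)]
  have hy' : ((t.tog p).tog (p + 1)).c (p + 1 + 1) = t.c (p + 1 + 1) + 1 := by
    rw [tog_c_succ hb, hy, hz]; unfold ny; rw [if_neg (by omega)]
  have hoth : ∀ i, i ≠ p + 1 → i ≠ p + 1 + 1 →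
      ((t.tog p).tog (p + 1)).c i / 2 = s.c i / 2 := by
    intro i e1 e2
    rw [tog_c_other _ e1 e2]
    by_cases e3 : i = p
    · rw [e3, hx, c0]; omega
    · rw [tog_c_other _ e3 e1, hc, if_neg e2]; omega
  refine ⟨(t.tog p).tog (p + 1), hR.trans hr (hR.trans (hstep t p ha) (hstep _ _ hb)), ?_, ?_, ?_,
    hoth⟩
  · have h5 := sumz_two (p + 1) (fun j => ((t.tog p).tog (p + 1)).c j / 2)
      (fun j => s.c j / 2) hoth
    simp only [hx', hy'] at h5
    have e1 := rs_eq ((t.tog p).tog (p + 1))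
    have e2 := rs_eq s
    omega
  · rw [hx']; omega
  · rw [hy']; omega

/-- potential for the pairs -/
def St.psi (s : St h cap g n) : ℕ :=
  ∑ k ∈ range (2 * h), (2 * h - k) * (s.c (k : ZMod (2 * h)) / 2)

lemma gather (hcap : Odd cap) (hh : 2 ≤ h) (hcn : n ≤ cap) (hg : g ∣ n)
    (hR : Equivalence R) (hstep : ∀ s p, s.Av p → R s (s.tog p)) (s : St h cap g n)
    (h1 : s.rs = 1) : ∃ s', R s s' ∧ s'.rs = 1 ∧ s'.c 0 / 2 = s.c 0 / 2 ∧
      ∀ k, 1 ≤ k → k + 1 < 2 * h → s'.c (k : ZMod (2 * h)) / 2 = 0 := by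
  induction hN : s.psi using Nat.strong_induction_on generalizing s with
  | _ N ih =>
    by_cases hs : ∀ k, 1 ≤ k → k + 1 < 2 * h → s.c (k : ZMod (2 * h)) / 2 = 0
    · exact ⟨s, hR.refl s, h1, rfl, hs⟩
    · push_neg at hs
      obtain ⟨k, hk1, hk2, hk3⟩ := hs
      obtain ⟨m, rfl⟩ : ∃ m, k = m + 1 := ⟨k - 1, by omega⟩
      rw [Nat.cast_succ] at hk3
      obtain ⟨t, hr, ht1, ht2, ht3, ht4⟩ := move_pair hcap hh hcn hg hR hstep s h1
        (m : ZMod (2 * h)) (by omega)
      have h5 := sum_two (k := m + 1) (L := 2 * h) hk2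
        (fun i => (2 * h - i) * (t.c (i : ZMod (2 * h)) / 2))
        (fun i => (2 * h - i) * (s.c (i : ZMod (2 * h)) / 2)) (by
          intro i hi e1 e2
          have e1' : (i : ZMod (2 * h)) ≠ (m : ZMod (2 * h)) + 1 := by
            intro hc
            apply e1
            apply pl_inj hi (by omega)
            rw [hc, Nat.cast_succ]
          have e2' : (i : ZMod (2 * h)) ≠ (m : ZMod (2 * h)) + 1 + 1 := by
            intro hc
            apply e2
            apply pl_inj hi hk2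
            rw [hc, Nat.cast_succ, Nat.cast_succ]
          rw [ht4 _ e1' e2'])
      simp only [Nat.cast_succ] at h5
      have h6 : t.psi < N := by
        rw [← hN]
        unfold St.psi
        have e1 : s.c ((m : ZMod (2 * h)) + 1) / 2 = t.c ((m : ZMod (2 * h)) + 1) / 2 + 1 :=
          ht2.symm
        rw [e1, ht3] at h5
        have e2 : 2 * h - (m + 1) = (2 * h - (m + 1 + 1)) + 1 := by omega
        rw [e2] at h5
        have e3 := h5
        simp only [add_mul, mul_add, one_mul, mul_one] at e3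
        omega
      have h0 : t.c 0 / 2 = s.c 0 / 2 := by
        apply ht4
        · intro hc
          have h3 : ((0 : ℕ) : ZMod (2 * h)) = ((m + 1 : ℕ) : ZMod (2 * h)) := by
            push_cast; exact hc
          have := pl_inj (by omega) (by omega) h3
          omega
        · intro hc
          have h3 : ((0 : ℕ) : ZMod (2 * h)) = ((m + 1 + 1 : ℕ) : ZMod (2 * h)) := by
            push_cast; rw [hc]
          have := pl_inj (by omega) (by omega) h3
          omega
      obtain ⟨s', a1, a2, a3, a4⟩ := ih _ h6 t ht1 rfl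
      exact ⟨s', hR.trans hr a1, a2, a3.trans h0, a4⟩

lemma iter_shift (hR : Equivalence R) (hshift : ∀ s, R s s.shift) (s : St h cap g n) (m : ℕ) :
    ∃ s', R s s' ∧ s'.rs = s.rs ∧ ∀ i, s'.c i = s.c (i + (m : ZMod (2 * h))) := by
  induction m with
  | zero => exact ⟨s, hR.refl s, rfl, fun i => by simp⟩
  | succ m ih =>
    obtain ⟨t, h1, h2, h3⟩ := ih
    refine ⟨t.shift, hR.trans h1 (hshift t), ?_, ?_⟩
    · rw [← h2]
      exact Equiv.sum_comp (Equiv.addRight (1 : ZMod (2 * h))) (fun i => t.c i % 2)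
    · intro i
      change t.c (i + 1) = _
      rw [h3, Nat.cast_succ]
      congr 1
      ring

/-- canonical states: one token, all pairs at the last place -/
def St.Canon (s : St h cap g n) : Prop :=
  s.rs = 1 ∧ ∀ k, k + 1 < 2 * h → s.c (k : ZMod (2 * h)) / 2 = 0

lemma exists_canon (hn : Odd n) (hcap : Odd cap) (hh : 2 ≤ h) (hcn : n ≤ cap) (hg : g ∣ n)
    (hR : Equivalence R) (hshift : ∀ s, R s s.shift)
    (hstep : ∀ s p, s.Av p → R s (s.tog p)) (s : St h cap g n) :
    ∃ s', R s s' ∧ s'.Canon := by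
  obtain ⟨s1, r1, t1⟩ := merge_tokens hn hcap hh hcn hR hstep s
  obtain ⟨s2, r2, t2, u2, v2⟩ := gather hcap hh hcn hg hR hstep s1 t1
  obtain ⟨s3, r3, t3, v3⟩ := iter_shift hR hshift s2 (2 * h - 2)
  obtain ⟨s4, r4, t4, u4, v4⟩ := gather hcap hh hcn hg hR hstep s3 (t3.trans t2)
  refine ⟨s4, hR.trans r1 (hR.trans r2 (hR.trans r3 r4)), t4, ?_⟩
  intro k hk
  by_cases hk0 : k = 0
  · subst hk0
    rw [Nat.cast_zero, u4, v3, zero_add]
    exact v2 _ (by omega) (by omega)
  · exact v4 k (by omega) hk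

lemma canon_half {s : St h cap g n} (hs : s.Canon) (i : ZMod (2 * h)) :
    s.c i / 2 = if i = (((2 * h - 1 : ℕ)) : ZMod (2 * h)) then (n - 1) / 2 else 0 := by
  have hN : 1 < 2 * h := by
    have := NeZero.pos h
    omega
  have hz : ∀ j, j ≠ (((2 * h - 1 : ℕ)) : ZMod (2 * h)) → s.c j / 2 = 0 := by
    intro j hj
    obtain ⟨k, hk, rfl⟩ := exists_pl j
    apply hs.2
    by_contra hcon
    apply hj
    congr 1
    omega
  split_ifs with hi
  · have h1 := rs_eq s
    rw [hs.1] at h1
    have h2 : ∑ j, s.c j / 2 = s.c i / 2 := by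
      apply Finset.sum_eq_single i
      · intro j _ hj
        exact hz j (by rw [← hi]; exact hj)
      · intro hc
        exact absurd (mem_univ i) hc
    rw [h2] at h1
    omega
  · exact hz i hi

lemma canon_up (hcap : Odd cap) (hcn : n ≤ cap) (hg : g ∣ n) (hR : Equivalence R)
    (hstep : ∀ s p, s.Av p → R s (s.tog p)) (s : St h cap g n) (hs : s.Canon) :
    ∃ s', R s s' ∧ s'.Canon ∧ s'.lab 0 = s.lab 0 + 1 := by
  have hN : 1 < 2 * h := by
    have := NeZero.pos h
    omega
  obtain ⟨t, hr, hl, hc⟩ := place_token hcap hcn hg hR hstep s hs.1 0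
  set q : ZMod (2 * h) := ((2 * h - 1 : ℕ) : ZMod (2 * h)) with hq
  have hq1 : q + 1 = 0 := by
    rw [hq, ← Nat.cast_succ, show (2 * h - 1).succ = 2 * h by omega, ZMod.natCast_self]
  have hq0 : q ≠ 0 := by
    intro hc0
    have : ((2 * h - 1 : ℕ) : ZMod (2 * h)) = ((0 : ℕ) : ZMod (2 * h)) := by
      rw [Nat.cast_zero]; exact hc0
    have := pl_inj (by omega) (by omega) this
    omega
  have cq : t.c q = 2 * (s.c q / 2) := by rw [hc, if_neg hq0, add_zero]
  have c00 : s.c 0 / 2 = 0 := by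
    have := hs.2 0 (by omega)
    rwa [Nat.cast_zero] at this
  have c0 : t.c 0 = 1 := by rw [hc, if_pos rfl, c00]
  have hpl := pair_le' t q
  rw [hq1] at hpl
  have ha : t.Av q := by
    unfold St.Av avXY
    rw [hq1]
    left
    omega
  have hx : nx (t.c q) = t.c q + 1 := by unfold nx; rw [if_pos (by omega)]
  have hhalf : ∀ i, (t.tog q).c i / 2 = s.c i / 2 := by
    intro i
    by_cases e1 : i = q
    · rw [e1, tog_c_self ha, hx]; omega
    · by_cases e2 : i = q + 1
      · rw [e2, tog_c_succ ha, hq1]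
        unfold ny
        rw [if_pos (by omega), c00, c0]
      · rw [tog_c_other t e1 e2, hc]
        split_ifs <;> omega
  refine ⟨t.tog q, hR.trans hr (hstep t q ha), ⟨?_, ?_⟩, ?_⟩
  · rw [rs_congr hhalf]; exact hs.1
  · intro k hk
    rw [hhalf]
    exact hs.2 k hk
  · have h1 := tog_lab ha 0
    rw [hq1, if_pos rfl, hx] at h1
    rw [h1, ← hl]
    have h2 := t.hlab q
    rw [hq1] at h2
    rw [h2]
    push_cast
    ring

/-- `cap >= n` -/
theorem conn_big (hn : Odd n) (hcap : Odd cap) (hh : 2 ≤ h) (hcn : n ≤ cap) (hg : g ∣ n)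
    (hR : Equivalence R) (hshift : ∀ s, R s s.shift)
    (hstep : ∀ s p, s.Av p → R s (s.tog p)) (s s' : St h cap g n) : R s s' := by
  have hg0 : NeZero g := ⟨by
    rintro rfl
    rw [zero_dvd_iff] at hg
    rw [hg] at hn
    exact absurd hn (by decide)⟩
  obtain ⟨t, r1, c1⟩ := exists_canon hn hcap hh hcn hg hR hshift hstep s
  obtain ⟨t', r2, c2⟩ := exists_canon hn hcap hh hcn hg hR hshift hstep s'
  obtain ⟨u, r3, c3, l3⟩ := lab_iter St.Canon hR (canon_up hcap hcn hg hR hstep) t c1 (t'.lab 0)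
  have r4 : R u t' := same_pairs hcap hR hstep
    (fun i => by rw [canon_half c2, canon_half c3]) l3.symm
  exact hR.trans r1 (hR.trans r3 (hR.trans r4 (hR.symm r2)))

end Rel

/-- **CONN**, `cap = 1` (number of beads odd) -/
theorem conn_odd (hn : Odd n) (hg : g ∣ n) (hh : 2 ≤ h) (h3 : h ≠ 3)
    {R : St h 1 g n → St h 1 g n → Prop} (hR : Equivalence R)
    (hshift : ∀ s, R s s.shift)
    (hgood : ∀ s i, ¬ s.Bad (par i) → s.Av i → R s (s.tog i))
    (hf : ∀ s : St h 1 g n, ∃ i, s.Av i ∧ R s (s.tog i)) (s s' : St h 1 g n) : R s s' :=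
  conn_one hn hg hR hshift
    (step hn odd_one hh (fun hc => absurd hc h3) hR hshift hgood hf) s s'

/-- **CONN**, `cap >= n` (number of beads even) -/
theorem conn_even (hn : Odd n) (hcap : Odd cap) (hcn : n ≤ cap) (hg : g ∣ n) (hh : 2 ≤ h)
    {R : St h cap g n → St h cap g n → Prop} (hR : Equivalence R)
    (hshift : ∀ s, R s s.shift)
    (hgood : ∀ s i, ¬ s.Bad (par i) → s.Av i → R s (s.tog i))
    (hf : ∀ s : St h cap g n, ∃ i, s.Av i ∧ R s (s.tog i)) (s s' : St h cap g n) : R s s' :=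
  conn_big hn hcap hh hcn hg hR hshift
    (step hn hcap hh (fun _ => hcn) hR hshift hgood hf) s s'

end Pool.OddHop
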