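import Mathlib

set_option autoImplicit false

namespace Pool.OddHop

open Finset

/-- States: `2h` places with contents `c i <= cap` (units = separators), total `n`, and the
hole number `lab i` (mod `g`) at place `i`. -/
@[ext] structure St (h cap g n : ℕ) [NeZero h] where
  c : ZMod (2 * h) → ℕ
  lab : ZMod (2 * h) → ZMod g
  hcap : ∀ i, c i ≤ cap
  hsum : ∑ i, c i = n
  hlab : ∀ i, lab (i + 1) = lab i + (c i : ZMod g)

variable {h cap g n : ℕ} [NeZero h]

/-- parity of a place -/
def par : ZMod (2 * h) →+* ZMod 2 := ZMod.castHom (Dvd.intro h rfl) (ZMod 2)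

lemma one_ne_zero' : (1 : ZMod (2 * h)) ≠ 0 := by
  intro hh
  have h1 : par (h := h) 1 = par (h := h) 0 := by rw [hh]
  rw [map_one, map_zero] at h1
  exact absurd h1 (by decide)

lemma add_one_ne (i : ZMod (2 * h)) : i + 1 ≠ i := by
  intro hh
  have : (1 : ZMod (2 * h)) = 0 := by
    have := congrArg (fun x => x - i) hh
    simpa using this
  exact one_ne_zero' this

lemma add_two_ne (i : ZMod (2 * h)) : i + 1 + 1 ≠ i + 1 := add_one_ne (i + 1)

/-- shift by one place -/
def St.shift (s : St h cap g n) : St h cap g n where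
  c := fun i => s.c (i + 1)
  lab := fun i => s.lab (i + 1)
  hcap := fun i => s.hcap (i + 1)
  hsum := (Equiv.sum_comp (Equiv.addRight (1 : ZMod (2 * h))) s.c).trans s.hsum
  hlab := fun i => s.hlab (i + 1)

/-- the toggle of a pair with contents `(x, y)` is available -/
def avXY (cap x y : ℕ) : Prop :=
  (x % 2 = 0 ∧ 1 ≤ y ∧ x + 1 ≤ cap) ∨ (x % 2 = 1 ∧ y + 1 ≤ cap)

instance (cap x y : ℕ) : Decidable (avXY cap x y) := by unfold avXY; infer_instance

/-- new content of the first place -/
def nx (x : ℕ) : ℕ := if x % 2 = 0 then x + 1 else x - 1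

/-- new content of the second place -/
def ny (x y : ℕ) : ℕ := if x % 2 = 0 then y - 1 else y + 1

lemma nx_le {x y : ℕ} (ha : avXY cap x y) (hx : x ≤ cap) : nx x ≤ cap := by
  unfold avXY at ha; unfold nx
  split_ifs <;> omega

lemma ny_le {x y : ℕ} (ha : avXY cap x y) (hy : y ≤ cap) : ny x y ≤ cap := by
  unfold avXY at ha; unfold ny
  split_ifs <;> omega

lemma nx_add_ny {x y : ℕ} (ha : avXY cap x y) : nx x + ny x y = x + y := by
  unfold avXY at ha; unfold nx ny
  split_ifs <;> omega

/-- the toggle of the pair `(i, i+1)` is available -/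
def St.Av (s : St h cap g n) (i : ZMod (2 * h)) : Prop := avXY cap (s.c i) (s.c (i + 1))

instance (s : St h cap g n) (i : ZMod (2 * h)) : Decidable (s.Av i) := by
  unfold St.Av; infer_instance

/-- contents after the toggle -/
def togc (c : ZMod (2 * h) → ℕ) (i j : ZMod (2 * h)) : ℕ :=
  if j = i then nx (c i) else if j = i + 1 then ny (c i) (c (i + 1)) else c j

lemma togc_sum (c : ZMod (2 * h) → ℕ) (i : ZMod (2 * h))
    (ha : avXY cap (c i) (c (i + 1))) : ∑ j, togc c i j = ∑ j, c j := by
  have h1 : ∀ f : ZMod (2 * h) → ℕ, ∑ j, f j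
      = f i + (f (i + 1) + ∑ j ∈ (univ.erase i).erase (i + 1), f j) := by
    intro f
    rw [← Finset.add_sum_erase univ f (mem_univ i),
      ← Finset.add_sum_erase (univ.erase i) f (mem_erase.2 ⟨add_one_ne i, mem_univ _⟩)]
  rw [h1, h1]
  have e1 : togc c i i = nx (c i) := by simp [togc]
  have e2 : togc c i (i + 1) = ny (c i) (c (i + 1)) := by
    unfold togc; rw [if_neg (add_one_ne i), if_pos rfl]
  have e3 : ∑ j ∈ (univ.erase i).erase (i + 1), togc c i j
      = ∑ j ∈ (univ.erase i).erase (i + 1), c j := by
    apply Finset.sum_congr rfl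
    intro j hj
    rw [mem_erase, mem_erase] at hj
    simp [togc, hj.1, hj.2.1]
  rw [e1, e2, e3]
  have := nx_add_ny ha
  omega

/-- The toggle at `i` (identity if it is not available). -/
def St.tog (s : St h cap g n) (i : ZMod (2 * h)) : St h cap g n :=
  if ha : s.Av i then
    { c := togc s.c i
      lab := fun j => if j = i + 1 then s.lab i + (nx (s.c i) : ZMod g) else s.lab j
      hcap := by
        intro j
        unfold togc
        split_ifs
        · exact nx_le ha (s.hcap i)
        · exact ny_le ha (s.hcap (i + 1))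
        · exact s.hcap j
      hsum := by rw [togc_sum s.c i ha, s.hsum]
      hlab := by
        intro j
        have hij : i ≠ i + 1 := (add_one_ne i).symm
        by_cases h1 : j = i
        · subst h1
          simp [togc, hij]
        · by_cases h2 : j = i + 1
          · subst h2
            have h3 : i + 1 + 1 ≠ i + 1 := add_two_ne i
            have h4 := s.hlab (i + 1)
            have h5 := s.hlab i
            have h6 := congrArg (fun x : ℕ => (x : ZMod g)) (nx_add_ny ha)
            simp only [Nat.cast_add] at h6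
            simp only [h3, if_false, togc, if_true, add_one_ne]
            rw [h4, h5, add_assoc, add_assoc, h6]
          · have h3 : j + 1 ≠ i + 1 := fun hh => h1 (add_right_cancel hh)
            simp [togc, h1, h2, h3, s.hlab j] }
  else s

/-- letter of the pair `(i, i+1)` -/
def St.letter (s : St h cap g n) (i : ZMod (2 * h)) : ℕ × ℕ :=
  (s.c i + s.c (i + 1), s.c i / 2)

/-- the class of `s` in the alignment `al` has a nontrivial stabiliser -/
def St.Bad (s : St h cap g n) (al : ZMod 2) : Prop :=
  ∃ t : ZMod (2 * h), t ≠ 0 ∧ par t = 0 ∧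
    ∀ i, par i = al → s.letter (i + t) = s.letter i ∧ s.lab (i + t) = s.lab i

/-- sign of a state -/
def St.sgn (s : St h cap g n) : ZMod 2 := ∑ i, par i * (s.c i : ZMod 2)

end Pool.OddHop
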