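import Pool.Agent.Work.MP_8f87b2_h69.Model

set_option autoImplicit false

namespace Pool.OddHop

open Finset

variable {h cap g n : ℕ} [NeZero h]

lemma par_add_one (i : ZMod (2 * h)) : par (i + 1) = par i + 1 := by rw [map_add, map_one]

lemma z2_add_one_ne (a : ZMod 2) : a + 1 ≠ a := by revert a; decide

lemma z2_add_two (a : ZMod 2) : a + 1 + 1 = a := by revert a; decide

lemma z2_cases (a b : ZMod 2) : b = a ∨ b = a + 1 := by revert a b; decide

lemma ne_of_par {i j : ZMod (2 * h)} (hij : par i = par j + 1) : i ≠ j := by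
  intro hh
  rw [hh] at hij
  exact z2_add_one_ne _ hij.symm

lemma ne_add_one_of_par {i j : ZMod (2 * h)} (hij : par i = par j) : i ≠ j + 1 := by
  intro hh
  rw [hh, par_add_one] at hij
  exact z2_add_one_ne _ hij

/-- states with the same contents and one common label are equal -/
lemma St.ext_lab {s s' : St h cap g n} (hc : s.c = s'.c) (j : ZMod (2 * h))
    (hl : s.lab j = s'.lab j) : s = s' := by
  have key : ∀ k : ℕ, s.lab (j + (k : ZMod (2 * h))) = s'.lab (j + (k : ZMod (2 * h))) := by
    intro k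
    induction k with
    | zero => simpa using hl
    | succ k ih =>
      rw [Nat.cast_succ, ← add_assoc, s.hlab, s'.hlab, ih, hc]
  apply St.ext hc
  funext i
  have h1 := key (i - j).val
  rw [ZMod.natCast_zmod_val] at h1
  simpa using h1

lemma tog_c {s : St h cap g n} {i : ZMod (2 * h)} (ha : s.Av i) : (s.tog i).c = togc s.c i := by
  unfold St.tog; rw [dif_pos ha]

lemma tog_lab {s : St h cap g n} {i : ZMod (2 * h)} (ha : s.Av i) (j : ZMod (2 * h)) :
    (s.tog i).lab j = if j = i + 1 then s.lab i + (nx (s.c i) : ZMod g) else s.lab j := by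
  unfold St.tog; rw [dif_pos ha]

lemma tog_of_not {s : St h cap g n} {i : ZMod (2 * h)} (ha : ¬ s.Av i) : s.tog i = s := by
  unfold St.tog; rw [dif_neg ha]

lemma togc_self (c : ZMod (2 * h) → ℕ) (i : ZMod (2 * h)) : togc c i i = nx (c i) := by
  simp [togc]

lemma togc_succ (c : ZMod (2 * h) → ℕ) (i : ZMod (2 * h)) :
    togc c i (i + 1) = ny (c i) (c (i + 1)) := by
  unfold togc; rw [if_neg (add_one_ne i), if_pos rfl]

lemma togc_other (c : ZMod (2 * h) → ℕ) {i j : ZMod (2 * h)} (h1 : j ≠ i) (h2 : j ≠ i + 1) :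
    togc c i j = c j := by
  unfold togc; rw [if_neg h1, if_neg h2]

lemma tog_lab_other (s : St h cap g n) {i j : ZMod (2 * h)} (h2 : j ≠ i + 1) :
    (s.tog i).lab j = s.lab j := by
  by_cases ha : s.Av i
  · rw [tog_lab ha, if_neg h2]
  · rw [tog_of_not ha]

lemma tog_c_other (s : St h cap g n) {i j : ZMod (2 * h)} (h1 : j ≠ i) (h2 : j ≠ i + 1) :
    (s.tog i).c j = s.c j := by
  by_cases ha : s.Av i
  · rw [tog_c ha, togc_other _ h1 h2]
  · rw [tog_of_not ha]

lemma av_nx {x y : ℕ} (ha : avXY cap x y) (hx : x ≤ cap) (hy : y ≤ cap) :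
    avXY cap (nx x) (ny x y) := by
  unfold avXY at *
  unfold nx ny
  split_ifs <;> omega

lemma nx_nx {x y : ℕ} (ha : avXY cap x y) : nx (nx x) = x := by
  unfold avXY at ha
  by_cases hx : x % 2 = 0
  · have h1 : nx x = x + 1 := by unfold nx; rw [if_pos hx]
    rw [h1]; unfold nx; rw [if_neg (by omega)]; omega
  · have h1 : nx x = x - 1 := by unfold nx; rw [if_neg hx]
    rw [h1]; unfold nx; rw [if_pos (by omega)]; omega

lemma ny_ny {x y : ℕ} (ha : avXY cap x y) : ny (nx x) (ny x y) = y := by
  unfold avXY at ha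
  by_cases hx : x % 2 = 0
  · have h1 : nx x = x + 1 := by unfold nx; rw [if_pos hx]
    have h2 : ny x y = y - 1 := by unfold ny; rw [if_pos hx]
    rw [h1, h2]; unfold ny; rw [if_neg (by omega)]; omega
  · have h1 : nx x = x - 1 := by unfold nx; rw [if_neg hx]
    have h2 : ny x y = y + 1 := by unfold ny; rw [if_neg hx]
    rw [h1, h2]; unfold ny; rw [if_pos (by omega)]; omega

lemma tog_c_self {s : St h cap g n} {i : ZMod (2 * h)} (ha : s.Av i) :
    (s.tog i).c i = nx (s.c i) := by rw [tog_c ha, togc_self]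

lemma tog_c_succ {s : St h cap g n} {i : ZMod (2 * h)} (ha : s.Av i) :
    (s.tog i).c (i + 1) = ny (s.c i) (s.c (i + 1)) := by rw [tog_c ha, togc_succ]

lemma av_tog {s : St h cap g n} {i : ZMod (2 * h)} (ha : s.Av i) : (s.tog i).Av i := by
  unfold St.Av
  rw [tog_c_self ha, tog_c_succ ha]
  exact av_nx ha (s.hcap _) (s.hcap _)

lemma av_tog_iff (s : St h cap g n) (i : ZMod (2 * h)) : (s.tog i).Av i ↔ s.Av i := by
  by_cases ha : s.Av i
  · exact ⟨fun _ => ha, fun _ => av_tog ha⟩
  · rw [tog_of_not ha]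

lemma tog_tog (s : St h cap g n) (i : ZMod (2 * h)) : (s.tog i).tog i = s := by
  by_cases ha : s.Av i
  · have hb := av_tog ha
    apply St.ext_lab (j := i)
    · funext j
      rw [tog_c hb]
      by_cases h1 : j = i
      · subst h1
        rw [togc_self, tog_c_self ha, nx_nx ha]
      · by_cases h2 : j = i + 1
        · subst h2
          rw [togc_succ, tog_c_self ha, tog_c_succ ha, ny_ny ha]
        · rw [togc_other _ h1 h2, tog_c_other s h1 h2]
    · have h3 : i ≠ i + 1 := (add_one_ne i).symm
      rw [tog_lab_other _ h3, tog_lab_other _ h3]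
  · rw [tog_of_not ha, tog_of_not ha]

/-- two toggles are far from each other -/
def Far (p q : ZMod (2 * h)) : Prop := p ≠ q ∧ p ≠ q + 1 ∧ q ≠ p + 1

lemma Far.symm {p q : ZMod (2 * h)} (hf : Far p q) : Far q p := ⟨hf.1.symm, hf.2.2, hf.2.1⟩

lemma av_far {s : St h cap g n} {p q : ZMod (2 * h)} (hf : Far p q) :
    (s.tog p).Av q ↔ s.Av q := by
  unfold St.Av
  rw [tog_c_other s hf.1.symm hf.2.2,
    tog_c_other s hf.2.1.symm (fun hh => hf.1.symm (add_right_cancel hh))]

lemma tog_comm (s : St h cap g n) {p q : ZMod (2 * h)} (hf : Far p q) :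
    (s.tog p).tog q = (s.tog q).tog p := by
  by_cases ha : s.Av p
  · by_cases hb : s.Av q
    · have ha' : (s.tog q).Av p := (av_far hf.symm).2 ha
      have hb' : (s.tog p).Av q := (av_far hf).2 hb
      have hpq1 : p + 1 ≠ q + 1 := fun hh => hf.1 (add_right_cancel hh)
      apply St.ext_lab (j := p)
      · funext j
        rw [tog_c ha', tog_c hb']
        by_cases h1 : j = p
        · subst h1
          rw [togc_other _ hf.1 hf.2.1, togc_self, tog_c_self ha, tog_c_other s hf.1 hf.2.1]
        · by_cases h2 : j = p + 1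
          · subst h2
            rw [togc_other _ hf.2.2.symm hpq1, togc_succ, tog_c_succ ha,
              tog_c_other s hf.1 hf.2.1, tog_c_other s hf.2.2.symm hpq1]
          · rw [togc_other (s.tog q).c h1 h2]
            by_cases h3 : j = q
            · subst h3
              rw [togc_self, tog_c_self hb, tog_c_other s h1 h2]
            · by_cases h4 : j = q + 1
              · subst h4
                rw [togc_succ, tog_c_succ hb, tog_c_other s h1 h2,
                  tog_c_other s hf.1.symm hf.2.2]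
              · rw [togc_other _ h3 h4, tog_c_other s h1 h2, tog_c_other s h3 h4]
      · have h5 : p ≠ p + 1 := (add_one_ne p).symm
        rw [tog_lab_other _ hf.2.1, tog_lab_other _ h5, tog_lab_other _ h5,
          tog_lab_other _ hf.2.1]
    · rw [tog_of_not hb, tog_of_not (fun hh => hb ((av_far hf).1 hh))]
  · rw [tog_of_not ha, tog_of_not (fun hh => ha ((av_far hf.symm).1 hh))]

/-- places of different parity are far as soon as they are not neighbours -/
lemma far_of_par {p q : ZMod (2 * h)} (hp : par q = par p + 1) (h1 : q ≠ p + 1)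
    (h2 : p ≠ q + 1) : Far p q := ⟨(ne_of_par hp).symm, h2, h1⟩

lemma far_of_par_eq {p q : ZMod (2 * h)} (hp : par q = par p) (h1 : q ≠ p) : Far p q :=
  ⟨h1.symm, ne_add_one_of_par hp.symm, ne_add_one_of_par hp⟩

lemma nx_div (x : ℕ) : nx x / 2 = x / 2 := by
  unfold nx
  split_ifs <;> omega

lemma letter_tog_same (s : St h cap g n) {p i : ZMod (2 * h)} (hi : par i = par p) :
    (s.tog p).letter i = s.letter i := by
  by_cases ha : s.Av p
  · unfold St.letter
    by_cases h1 : i = p
    · subst h1
      rw [tog_c_self ha, tog_c_succ ha, nx_add_ny ha, nx_div]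
    · have h2 : i ≠ p + 1 := ne_add_one_of_par hi
      have h3 : i + 1 ≠ p := by
        intro hh
        apply ne_add_one_of_par hi.symm
        exact hh.symm
      have h4 : i + 1 ≠ p + 1 := fun hh => h1 (add_right_cancel hh)
      rw [tog_c_other s h1 h2, tog_c_other s h3 h4]
  · rw [tog_of_not ha]

lemma bad_tog_same (s : St h cap g n) (p : ZMod (2 * h)) :
    (s.tog p).Bad (par p) ↔ s.Bad (par p) := by
  have key : ∀ s : St h cap g n, s.Bad (par p) → (s.tog p).Bad (par p) := by
    rintro s ⟨t, ht0, htp, ht⟩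
    refine ⟨t, ht0, htp, ?_⟩
    intro i hi
    have hit : par (i + t) = par p := by rw [map_add, htp, add_zero, hi]
    rw [letter_tog_same s hi, letter_tog_same s hit, tog_lab_other s (ne_add_one_of_par hi),
      tog_lab_other s (ne_add_one_of_par hit)]
    exact ht i hi
  refine ⟨fun hb => ?_, key s⟩
  have := key _ hb
  rwa [tog_tog] at this

/-- availability is determined by the letter -/
def avL (cap : ℕ) (l : ℕ × ℕ) : Prop :=
  2 * l.2 + 1 ≤ l.1 ∧ l.1 ≤ 2 * l.2 + cap ∧ 2 * l.2 + 1 ≤ cap

lemma av_iff_avL (s : St h cap g n) (i : ZMod (2 * h)) : s.Av i ↔ avL cap (s.letter i) := by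
  have h1 := s.hcap i
  have h2 := s.hcap (i + 1)
  unfold St.Av avXY avL St.letter
  simp only
  omega

lemma av_of_odd (hcap : Odd cap) (s : St h cap g n) (i : ZMod (2 * h))
    (ho : (s.c i + s.c (i + 1)) % 2 = 1) : s.Av i := by
  have h1 := s.hcap i
  have h2 := s.hcap (i + 1)
  obtain ⟨k, hk⟩ := hcap
  unfold St.Av avXY
  omega

end Pool.OddHop
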