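import Pool.Agent.Work.MP_8f87b2_h69.Basic

set_option autoImplicit false

namespace Pool.OddHop

open Finset

section General

variable {N : ℕ} [NeZero N]

lemma nsmul_inv {S : Finset (ZMod N)} {t : ZMod N} (hS : ∀ i ∈ S, i + t ∈ S) (k : ℕ) :
    ∀ i ∈ S, i + k • t ∈ S := by
  induction k with
  | zero => intro i hi; simpa using hi
  | succ k ih => intro i hi; rw [succ_nsmul, ← add_assoc]; exact hS _ (ih i hi)

lemma order_dvd_card (t : ZMod N) (S : Finset (ZMod N)) (hS : ∀ i ∈ S, i + t ∈ S) :
    addOrderOf t ∣ S.card := by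
  classical
  rw [Finset.card_eq_sum_card_image
    (fun i => (QuotientAddGroup.mk i : ZMod N ⧸ AddSubgroup.zmultiples t)) S]
  apply Finset.dvd_sum
  intro b hb
  obtain ⟨i0, hi0, rfl⟩ := Finset.mem_image.1 hb
  have hfin : IsOfFinAddOrder t := isOfFinAddOrder_of_finite t
  have h1 : (S.filter (fun i => (QuotientAddGroup.mk i : ZMod N ⧸ AddSubgroup.zmultiples t)
        = QuotientAddGroup.mk i0))
      = (Finset.univ : Finset ↥(AddSubgroup.zmultiples t)).image
        (fun x : ↥(AddSubgroup.zmultiples t) => i0 + x.1) := by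
    ext i
    rw [mem_filter, mem_image]
    constructor
    · rintro ⟨_, h2⟩
      have h3 := (QuotientAddGroup.eq.1 h2.symm)
      exact ⟨⟨-i0 + i, h3⟩, mem_univ _, by simp⟩
    · rintro ⟨⟨x, hx⟩, _, rfl⟩
      refine ⟨?_, ?_⟩
      · rw [← hfin.mem_multiples_iff_mem_zmultiples] at hx
        obtain ⟨k, rfl⟩ := hx
        exact nsmul_inv hS k i0 hi0
      · apply Eq.symm
        apply QuotientAddGroup.eq.2
        simpa using hx
  rw [h1, Finset.card_image_of_injective _ (by
    intro x y hxy
    exact Subtype.ext (add_left_cancel hxy)), Finset.card_univ, ← Nat.card_eq_fintype_card,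
    Nat.card_zmultiples]

lemma three_le_order {t : ZMod N} (ht : t ≠ 0) (ho : Odd (addOrderOf t)) :
    3 ≤ addOrderOf t := by
  have h1 : addOrderOf t ≠ 1 := by
    intro hh
    exact ht (AddMonoid.addOrderOf_eq_one_iff.1 hh)
  obtain ⟨k, hk⟩ := ho
  omega

lemma three_unique {t t' : ZMod N} (h3 : addOrderOf t = 3) (h3' : addOrderOf t' = 3) :
    t' = t ∨ t' = t + t := by
  have key : ∀ t : ZMod N, addOrderOf t = 3 → 3 * t.val = N ∨ 3 * t.val = 2 * N := by
    intro t ht
    have h1 : (3 : ℕ) • t = 0 := by rw [← ht]; exact addOrderOf_nsmul_eq_zero t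
    have h2 : ((3 * t.val : ℕ) : ZMod N) = 0 := by
      rw [Nat.cast_mul, ZMod.natCast_zmod_val, ← nsmul_eq_mul]; exact h1
    rw [ZMod.natCast_eq_zero_iff] at h2
    obtain ⟨k, hk⟩ := h2
    have h4 : t.val < N := ZMod.val_lt t
    have h5 : t.val ≠ 0 := by
      intro hh
      rw [ZMod.val_eq_zero] at hh
      rw [hh, addOrderOf_zero] at ht
      omega
    have h6 : k < 3 := by
      by_contra hk3
      have : N * 3 ≤ N * k := Nat.mul_le_mul_left _ (by omega)
      omega
    have h7 : k ≠ 0 := by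
      rintro rfl
      omega
    interval_cases k
    · exact absurd rfl h7
    · left; omega
    · right; omega
  have hv : ∀ t : ZMod N, ((t.val : ℕ) : ZMod N) = t := fun t => ZMod.natCast_zmod_val t
  rcases key t h3 with h1 | h1 <;> rcases key t' h3' with h2 | h2
  · left
    rw [← hv t, ← hv t']; congr 1; omega
  · right
    rw [← hv t, ← hv t', ← Nat.cast_add]; congr 1; omega
  · right
    have h4 : t.val + t.val = t'.val + N := by omega
    have h5 := congrArg (fun x : ℕ => (x : ZMod N)) h4
    simp only [Nat.cast_add, hv, ZMod.natCast_self, add_zero] at h5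
    exact h5.symm
  · left
    rw [← hv t, ← hv t']; congr 1; omega

lemma fw {α : Type*} (P : ZMod N → Prop) (W W' : ZMod N → α)
    (t t' u v : ZMod N) (ht0 : t ≠ 0) (ht0' : t' ≠ 0) (hot : Odd (addOrderOf t))
    (hot' : Odd (addOrderOf t')) (hPt : ∀ i, P i → P (i + t)) (hPt' : ∀ i, P i → P (i + t'))
    (hW : ∀ i, P i → W (i + t) = W i) (hW' : ∀ i, P i → W' (i + t') = W' i)
    (hD : ∀ i, P i → i ≠ u → i ≠ v → W i = W' i) (hne : ∃ i, P i ∧ W i ≠ W' i) : False := by
  classical
  have hr := three_le_order ht0 hot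
  have hr' := three_le_order ht0' hot'
  set D : Finset (ZMod N) := univ.filter (fun i => P i ∧ W i ≠ W' i) with hDdef
  have hDmem : ∀ i, i ∈ D ↔ (P i ∧ W i ≠ W' i) := by intro i; simp [hDdef]
  have hDne : D.Nonempty := by
    obtain ⟨i, hi⟩ := hne
    exact ⟨i, (hDmem i).2 hi⟩
  have hDcard : D.card ≤ 2 := by
    have : D ⊆ {u, v} := by
      intro i hi
      rw [hDmem] at hi
      by_contra hc
      simp only [mem_insert, mem_singleton, not_or] at hc
      exact hi.2 (hD i hi.1 hc.1 hc.2)
    exact (card_le_card this).trans card_le_two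
  have hDpos : 0 < D.card := hDne.card_pos
  set E : Finset (ZMod N) := univ.filter (fun i => P i ∧ W (i + t') ≠ W i) with hEdef
  have hEmem : ∀ i, i ∈ E ↔ (P i ∧ W (i + t') ≠ W i) := by intro i; simp [hEdef]
  set E' : Finset (ZMod N) := univ.filter (fun i => P i ∧ W' (i + t) ≠ W' i) with hE'def
  have hE'mem : ∀ i, i ∈ E' ↔ (P i ∧ W' (i + t) ≠ W' i) := by intro i; simp [hE'def]
  have hEinv : ∀ i ∈ E, i + t ∈ E := by
    intro i hi
    rw [hEmem] at hi ⊢
    refine ⟨hPt i hi.1, ?_⟩
    rw [show i + t + t' = i + t' + t by ring, hW _ (hPt' i hi.1), hW i hi.1]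
    exact hi.2
  have hE'inv : ∀ i ∈ E', i + t' ∈ E' := by
    intro i hi
    rw [hE'mem] at hi ⊢
    refine ⟨hPt' i hi.1, ?_⟩
    rw [show i + t' + t = i + t + t' by ring, hW' _ (hPt i hi.1), hW' i hi.1]
    exact hi.2
  have hEcard : E.card ≤ 4 := by
    have : E ⊆ {u, v, u - t', v - t'} := by
      intro i hi
      rw [hEmem] at hi
      by_contra hc
      simp only [mem_insert, mem_singleton, not_or] at hc
      obtain ⟨h1, h2, h3, h4⟩ := hc
      apply hi.2
      rw [hD i hi.1 h1 h2, hD (i + t') (hPt' i hi.1) (fun hh => h3 (by rw [← hh]; ring))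
        (fun hh => h4 (by rw [← hh]; ring)), hW' i hi.1]
    exact (card_le_card this).trans card_le_four
  have hE'card : E'.card ≤ 4 := by
    have : E' ⊆ {u, v, u - t, v - t} := by
      intro i hi
      rw [hE'mem] at hi
      by_contra hc
      simp only [mem_insert, mem_singleton, not_or] at hc
      obtain ⟨h1, h2, h3, h4⟩ := hc
      apply hi.2
      rw [← hD i hi.1 h1 h2, ← hD (i + t) (hPt i hi.1) (fun hh => h3 (by rw [← hh]; ring))
        (fun hh => h4 (by rw [← hh]; ring)), hW i hi.1]
    exact (card_le_card this).trans card_le_four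
  have hEd := order_dvd_card t E hEinv
  have hE'd := order_dvd_card t' E' hE'inv
  have hEne : E.Nonempty := by
    by_contra hc
    rw [not_nonempty_iff_eq_empty] at hc
    have hinv : ∀ i ∈ D, i + t' ∈ D := by
      intro i hi
      rw [hDmem] at hi ⊢
      refine ⟨hPt' i hi.1, ?_⟩
      have h1 : W (i + t') = W i := by
        by_contra h2
        have : i ∈ E := (hEmem i).2 ⟨hi.1, h2⟩
        rw [hc] at this
        exact absurd this (notMem_empty i)
      rw [h1, hW' i hi.1]
      exact hi.2
    have h3 := Nat.le_of_dvd hDpos (order_dvd_card t' D hinv)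
    omega
  have hE'ne : E'.Nonempty := by
    by_contra hc
    rw [not_nonempty_iff_eq_empty] at hc
    have hinv : ∀ i ∈ D, i + t ∈ D := by
      intro i hi
      rw [hDmem] at hi ⊢
      refine ⟨hPt i hi.1, ?_⟩
      have h1 : W' (i + t) = W' i := by
        by_contra h2
        have : i ∈ E' := (hE'mem i).2 ⟨hi.1, h2⟩
        rw [hc] at this
        exact absurd this (notMem_empty i)
      rw [h1, hW i hi.1]
      exact hi.2
    have h3 := Nat.le_of_dvd hDpos (order_dvd_card t D hinv)
    omega
  have h3 : addOrderOf t = 3 := by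
    have h4 := Nat.le_of_dvd hEne.card_pos hEd
    obtain ⟨k, hk⟩ := hot
    omega
  have h3' : addOrderOf t' = 3 := by
    have h4 := Nat.le_of_dvd hE'ne.card_pos hE'd
    obtain ⟨k, hk⟩ := hot'
    omega
  obtain ⟨i, hi⟩ := hEne
  rw [hEmem] at hi
  apply hi.2
  rcases three_unique h3 h3' with hh | hh
  · rw [hh, hW i hi.1]
  · rw [hh, ← add_assoc, hW _ (hPt i hi.1), hW i hi.1]

end General

variable {h cap g n : ℕ} [NeZero h]

lemma sum_pairs (s : St h cap g n) (al : ZMod 2) :
    ∑ i ∈ univ.filter (fun i : ZMod (2 * h) => par i = al), (s.c i + s.c (i + 1)) = n := by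
  rw [Finset.sum_filter]
  have h1 : ∀ i : ZMod (2 * h), (if par i = al then (s.c i + s.c (i + 1)) else 0)
      = (if par i = al then s.c i else 0)
        + (if par (i + 1) = al + 1 then s.c (i + 1) else 0) := by
    intro i
    rw [par_add_one]
    by_cases h2 : par i = al
    · simp [h2]
    · simp [h2]
  rw [Finset.sum_congr rfl (fun i _ => h1 i), Finset.sum_add_distrib]
  have h3 := Equiv.sum_comp (Equiv.addRight (1 : ZMod (2 * h)))
    (fun j => if par j = al + 1 then s.c j else 0)
  simp only [Equiv.coe_addRight] at h3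
  rw [h3, ← Finset.sum_add_distrib]
  refine Eq.trans ?_ s.hsum
  apply Finset.sum_congr rfl
  intro i _
  rcases z2_cases al (par i) with h4 | h4
  · rw [h4, if_pos rfl, if_neg (fun hh => z2_add_one_ne al hh.symm), add_zero]
  · rw [h4, if_pos rfl, if_neg (z2_add_one_ne al), zero_add]

/-- places of alignment `al` whose pair has odd sum -/
def St.odds (s : St h cap g n) (al : ZMod 2) : Finset (ZMod (2 * h)) :=
  univ.filter (fun i => par i = al ∧ (s.c i + s.c (i + 1)) % 2 = 1)

lemma mem_odds {s : St h cap g n} {al : ZMod 2} {i : ZMod (2 * h)} :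
    i ∈ s.odds al ↔ par i = al ∧ (s.c i + s.c (i + 1)) % 2 = 1 := by
  simp [St.odds]

lemma odd_card_odd (hn : Odd n) (s : St h cap g n) (al : ZMod 2) : Odd (s.odds al).card := by
  have h1 : Odd (∑ i ∈ univ.filter (fun i : ZMod (2 * h) => par i = al),
      (s.c i + s.c (i + 1))) := by rw [sum_pairs]; exact hn
  rw [Finset.odd_sum_iff_odd_card_odd, Finset.filter_filter] at h1
  have h2 : s.odds al = univ.filter (fun i : ZMod (2 * h) =>
      par i = al ∧ Odd (s.c i + s.c (i + 1))) := by
    ext i
    rw [mem_odds, mem_filter]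
    simp only [mem_univ, true_and, Nat.odd_iff]
  rw [h2]
  exact h1

lemma bad_order (hn : Odd n) {s : St h cap g n} {al : ZMod 2} {t : ZMod (2 * h)}
    (htp : par t = 0) (ht : ∀ i, par i = al → s.letter (i + t) = s.letter i) :
    Odd (addOrderOf t) := by
  refine Odd.of_dvd_nat (odd_card_odd hn s al) (order_dvd_card t _ ?_)
  intro i hi
  rw [mem_odds] at hi ⊢
  have h1 := ht i hi.1
  unfold St.letter at h1
  have h2 := (Prod.mk.injEq _ _ _ _).mp h1
  refine ⟨by rw [map_add, htp, add_zero, hi.1], ?_⟩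
  rw [h2.1]
  exact hi.2

lemma two_ne (hh : 2 ≤ h) (i : ZMod (2 * h)) : i + 1 + 1 ≠ i := by
  intro hc
  have h1 : ((2 : ℕ) : ZMod (2 * h)) = 0 := by
    have := congrArg (fun x => x - i) hc
    simp only [sub_self] at this
    rw [← this]; push_cast; ring
  rw [ZMod.natCast_eq_zero_iff] at h1
  have := Nat.le_of_dvd (by norm_num) h1
  omega

/-- F1: the classes of the other alignment before and after a toggle are not both bad -/
lemma f1 (hn : Odd n) (hh : 2 ≤ h) {s : St h cap g n} {p : ZMod (2 * h)} (ha : s.Av p)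
    (hb : s.Bad (par p + 1)) (hb' : (s.tog p).Bad (par p + 1)) : False := by
  obtain ⟨t, ht0, htp, ht⟩ := hb
  obtain ⟨t', ht0', htp', ht'⟩ := hb'
  have ho := bad_order hn htp (fun i hi => (ht i hi).1)
  have ho' := bad_order hn htp' (fun i hi => (ht' i hi).1)
  refine fw (fun i => par i = par p + 1) s.letter (s.tog p).letter t t' (p + 1) (p - 1) ht0 ht0'
    ho ho' ?_ ?_ (fun i hi => (ht i hi).1) (fun i hi => (ht' i hi).1) ?_ ?_
  · intro i hi
    simp only [map_add, htp, add_zero]
    exact hi
  · intro i hi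
    simp only [map_add, htp', add_zero]
    exact hi
  · intro i hi h1 h2
    have h3 : i ≠ p := ne_of_par hi
    have h4 : i + 1 ≠ p := fun hc => h2 (by rw [← hc]; ring)
    have h5 : i + 1 ≠ p + 1 := fun hc => h3 (add_right_cancel hc)
    unfold St.letter
    rw [tog_c_other s h3 h1, tog_c_other s h4 h5]
  · refine ⟨p + 1, par_add_one p, ?_⟩
    intro hc
    unfold St.letter at hc
    have h2 := ((Prod.mk.injEq _ _ _ _).mp hc).1
    rw [tog_c_succ ha, tog_c_other s (two_ne hh p) (add_two_ne p)] at h2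
    have h3 : s.c (p + 1) = ny (s.c p) (s.c (p + 1)) := by omega
    have ha' := ha
    unfold St.Av avXY at ha'
    unfold ny at h3
    split_ifs at h3 <;> omega

end Pool.OddHop
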