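import Pool.Agent.Work.MP_8f87b2_h69.Step3

set_option autoImplicit false

namespace Pool.OddHop

open Finset

variable {h cap g n : ℕ} [NeZero h]

lemma pl_inj {k l : ℕ} (hk : k < 2 * h) (hl : l < 2 * h)
    (he : (k : ZMod (2 * h)) = (l : ZMod (2 * h))) : k = l := by
  have := congrArg ZMod.val he
  rwa [ZMod.val_natCast_of_lt hk, ZMod.val_natCast_of_lt hl] at this

lemma sum_zmod (f : ZMod (2 * h) → ℕ) :
    ∑ i, f i = ∑ k ∈ range (2 * h), f (k : ZMod (2 * h)) := by
  refine Finset.sum_nbij' (fun i => i.val) (fun k => (k : ZMod (2 * h))) ?_ ?_ ?_ ?_ ?_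
  · intro i _; exact mem_range.2 (ZMod.val_lt i)
  · intro k _; exact mem_univ _
  · intro i _; exact ZMod.natCast_zmod_val i
  · intro k hk; exact ZMod.val_natCast_of_lt (mem_range.1 hk)
  · intro i _; rw [ZMod.natCast_zmod_val]

lemma exists_pl (i : ZMod (2 * h)) : ∃ k, k < 2 * h ∧ i = (k : ZMod (2 * h)) :=
  ⟨i.val, ZMod.val_lt i, (ZMod.natCast_zmod_val i).symm⟩

/-- number of tokens -/
def St.rs (s : St h cap g n) : ℕ := ∑ i, s.c i % 2

lemma rs_eq (s : St h cap g n) : s.rs + 2 * ∑ i, s.c i / 2 = n := by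
  rw [St.rs, Finset.mul_sum, ← Finset.sum_add_distrib]
  refine Eq.trans ?_ s.hsum
  apply Finset.sum_congr rfl
  intro i _
  exact Nat.mod_add_div _ _

lemma rs_congr {s s' : St h cap g n} (hs : ∀ i, s'.c i / 2 = s.c i / 2) : s'.rs = s.rs := by
  have h1 := rs_eq s
  have h2 := rs_eq s'
  rw [Finset.sum_congr rfl (fun i _ => hs i)] at h2
  omega

/-- potential -/
def St.phi (s : St h cap g n) : ℕ := ∑ k ∈ range (2 * h), k * (s.c (k : ZMod (2 * h)) % 2)

def St.Sorted (s : St h cap g n) : Prop :=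
  ∀ k, k + 1 < 2 * h → s.c (k : ZMod (2 * h)) % 2 = 0 → s.c ((k + 1 : ℕ) : ZMod (2 * h)) % 2 = 0

lemma sum_two {L k : ℕ} (hk : k + 1 < L) (F G : ℕ → ℕ)
    (hFG : ∀ i < L, i ≠ k → i ≠ k + 1 → F i = G i) :
    ∑ i ∈ range L, F i + (G k + G (k + 1)) = ∑ i ∈ range L, G i + (F k + F (k + 1)) := by
  have h1 : ∀ H : ℕ → ℕ, ∑ i ∈ range L, H i
      = H k + (H (k + 1) + ∑ i ∈ ((range L).erase k).erase (k + 1), H i) := by
    intro H
    rw [← Finset.add_sum_erase (range L) H (mem_range.2 (by omega : k < L)),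
      ← Finset.add_sum_erase ((range L).erase k) H
        (mem_erase.2 ⟨by omega, mem_range.2 hk⟩)]
  have h2 : ∑ i ∈ ((range L).erase k).erase (k + 1), F i
      = ∑ i ∈ ((range L).erase k).erase (k + 1), G i := by
    apply Finset.sum_congr rfl
    intro i hi
    rw [mem_erase, mem_erase, mem_range] at hi
    exact hFG i hi.2.2 hi.2.1 hi.1
  rw [h1 F, h1 G, h2]
  omega

/-- one sorting step -/
lemma sort_step (hcap : Odd cap) (s : St h cap g n) {k : ℕ} (hk : k + 1 < 2 * h)
    (h0 : s.c (k : ZMod (2 * h)) % 2 = 0) (h1 : s.c ((k + 1 : ℕ) : ZMod (2 * h)) % 2 = 1) :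
    s.Av (k : ZMod (2 * h)) ∧ (s.tog (k : ZMod (2 * h))).lab 0 = s.lab 0 ∧
      (∀ i, (s.tog (k : ZMod (2 * h))).c i / 2 = s.c i / 2) ∧
      (s.tog (k : ZMod (2 * h))).phi < s.phi := by
  rw [Nat.cast_succ] at h1
  have ha : s.Av (k : ZMod (2 * h)) := by
    have := s.hcap (k : ZMod (2 * h))
    obtain ⟨q, hq⟩ := hcap
    unfold St.Av avXY
    left
    omega
  have hx : nx (s.c (k : ZMod (2 * h))) = s.c (k : ZMod (2 * h)) + 1 := by
    unfold nx; rw [if_pos h0]
  have hy : ny (s.c (k : ZMod (2 * h))) (s.c ((k : ZMod (2 * h)) + 1))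
      = s.c ((k : ZMod (2 * h)) + 1) - 1 := by
    unfold ny; rw [if_pos h0]
  refine ⟨ha, ?_, ?_, ?_⟩
  · apply tog_lab_other
    intro hc
    have h3 : ((0 : ℕ) : ZMod (2 * h)) = ((k + 1 : ℕ) : ZMod (2 * h)) := by
      push_cast; exact hc
    have := pl_inj (by omega) hk h3
    omega
  · intro i
    by_cases e1 : i = (k : ZMod (2 * h))
    · rw [e1, tog_c_self ha, hx]; omega
    · by_cases e2 : i = (k : ZMod (2 * h)) + 1
      · rw [e2, tog_c_succ ha, hy]; omega
      · rw [tog_c_other s e1 e2]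
  · have h5 := sum_two hk
      (fun i => i * ((s.tog (k : ZMod (2 * h))).c (i : ZMod (2 * h)) % 2))
      (fun i => i * (s.c (i : ZMod (2 * h)) % 2)) (by
        intro i hi e1 e2
        have e1' : (i : ZMod (2 * h)) ≠ (k : ZMod (2 * h)) := fun hc =>
          e1 (pl_inj hi (by omega) hc)
        have e2' : (i : ZMod (2 * h)) ≠ (k : ZMod (2 * h)) + 1 := by
          intro hc
          apply e2
          apply pl_inj hi hk
          rw [hc, Nat.cast_succ]
        rw [tog_c_other s e1' e2'])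
    simp only [Nat.cast_succ] at h5
    rw [tog_c_self ha, tog_c_succ ha, hx, hy] at h5
    have e3 : (s.c (k : ZMod (2 * h)) + 1) % 2 = 1 := by omega
    have e4 : (s.c ((k : ZMod (2 * h)) + 1) - 1) % 2 = 0 := by omega
    rw [e3, e4, h0, h1] at h5
    unfold St.phi
    omega

section Rel

variable {R : St h cap g n → St h cap g n → Prop}

lemma exists_sorted (hcap : Odd cap) (hR : Equivalence R)
    (hstep : ∀ s p, s.Av p → R s (s.tog p)) (s : St h cap g n) :
    ∃ s', R s s' ∧ s'.lab 0 = s.lab 0 ∧ (∀ i, s'.c i / 2 = s.c i / 2) ∧ s'.Sorted := by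
  induction hN : s.phi using Nat.strong_induction_on generalizing s with
  | _ N ih =>
    by_cases hs : s.Sorted
    · exact ⟨s, hR.refl s, rfl, fun _ => rfl, hs⟩
    · unfold St.Sorted at hs
      push_neg at hs
      obtain ⟨k, hk, h0, h1⟩ := hs
      obtain ⟨ha, hl, hc, hphi⟩ := sort_step hcap s hk h0 (by omega)
      obtain ⟨s', hr, hl', hc', hs'⟩ := ih _ (by rw [← hN]; exact hphi)
        (s.tog (k : ZMod (2 * h))) rfl
      exact ⟨s', hR.trans (hstep s _ ha) hr, hl'.trans hl, fun i => (hc' i).trans (hc i), hs'⟩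

lemma sorted_mono {s : St h cap g n} (hs : s.Sorted) {k l : ℕ} (hkl : k ≤ l) (hl : l < 2 * h)
    (h0 : s.c (k : ZMod (2 * h)) % 2 = 0) : s.c (l : ZMod (2 * h)) % 2 = 0 := by
  induction l, hkl using Nat.le_induction with
  | base => exact h0
  | succ l hkl ih => exact hs l hl (ih (by omega))

lemma sum_ind {L k : ℕ} (hk : k ≤ L) : ∑ i ∈ range L, (if i < k then 1 else 0) = k := by
  rw [← Finset.sum_filter, Finset.sum_const, smul_eq_mul, mul_one]
  have : (range L).filter (fun i => i < k) = range k := by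
    ext i
    simp only [mem_filter, mem_range]
    omega
  rw [this, card_range]

lemma sorted_unique {s s' : St h cap g n} (hs : s.Sorted) (hs' : s'.Sorted)
    (hc : ∀ i, s'.c i / 2 = s.c i / 2) (hl : s'.lab 0 = s.lab 0) : s' = s := by
  have key : ∀ s s' : St h cap g n, s.Sorted → s'.Sorted → (∀ i, s'.c i / 2 = s.c i / 2) →
      ∀ k < 2 * h, s.c (k : ZMod (2 * h)) % 2 = 1 → s'.c (k : ZMod (2 * h)) % 2 = 0 → False := by
    intro s s' hs hs' hc k hk h1 h0
    have hrs := rs_congr hc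
    unfold St.rs at hrs
    rw [sum_zmod (fun i => s.c i % 2), sum_zmod (fun i => s'.c i % 2)] at hrs
    have e1 : ∑ i ∈ range (2 * h), (if i < k + 1 then 1 else 0)
        ≤ ∑ i ∈ range (2 * h), s.c (i : ZMod (2 * h)) % 2 := by
      apply Finset.sum_le_sum
      intro i hi
      split_ifs with hik
      · by_contra hcon
        have := sorted_mono hs (show i ≤ k by omega) hk (by omega)
        omega
      · exact Nat.zero_le _
    have e2 : ∑ i ∈ range (2 * h), s'.c (i : ZMod (2 * h)) % 2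
        ≤ ∑ i ∈ range (2 * h), (if i < k then 1 else 0) := by
      apply Finset.sum_le_sum
      intro i hi
      split_ifs with hik
      · omega
      · rw [sorted_mono hs' (show k ≤ i by omega) (mem_range.1 hi) h0]
    rw [sum_ind (by omega)] at e1 e2
    omega
  apply St.ext_lab (j := 0) _ hl
  funext i
  obtain ⟨k, hk, rfl⟩ := exists_pl i
  have h1 := hc (k : ZMod (2 * h))
  rcases Nat.mod_two_eq_zero_or_one (s.c (k : ZMod (2 * h))) with a | a <;>
    rcases Nat.mod_two_eq_zero_or_one (s'.c (k : ZMod (2 * h))) with b | b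
  · omega
  · exact (key s' s hs' hs (fun i => (hc i).symm) k hk b a).elim
  · exact (key s s' hs hs' hc k hk a b).elim
  · omega

/-- states with the same pairs and the same label at 0 are related -/
lemma same_pairs (hcap : Odd cap) (hR : Equivalence R)
    (hstep : ∀ s p, s.Av p → R s (s.tog p)) {s s' : St h cap g n}
    (hc : ∀ i, s'.c i / 2 = s.c i / 2) (hl : s'.lab 0 = s.lab 0) : R s s' := by
  obtain ⟨t, hr, hl1, hc1, hs1⟩ := exists_sorted hcap hR hstep s
  obtain ⟨t', hr', hl2, hc2, hs2⟩ := exists_sorted hcap hR hstep s'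
  have : t' = t := sorted_unique hs1 hs2
    (fun i => by rw [hc2, hc, hc1]) (by rw [hl2, hl, hl1])
  rw [this] at hr'
  exact hR.trans hr (hR.symm hr')

end Rel

/-- the state with given contents and given label at 0 -/
def mkSt (c : ZMod (2 * h) → ℕ) (hcap : ∀ i, c i ≤ cap) (hsum : ∑ i, c i = n)
    (hg : g ∣ n) (l0 : ZMod g) : St h cap g n where
  c := c
  lab := fun i => l0 + ((∑ k ∈ range i.val, c (k : ZMod (2 * h)) : ℕ) : ZMod g)
  hcap := hcap
  hsum := hsum
  hlab := by
    intro i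
    have hN : 1 < 2 * h := by
      have := NeZero.pos h
      omega
    by_cases hi : i.val + 1 < 2 * h
    · have h1 : (i + 1).val = i.val + 1 := by
        rw [ZMod.val_add_of_lt (by rw [ZMod.val_one'' (by omega)]; exact hi),
          ZMod.val_one'' (by omega)]
      rw [h1, Finset.sum_range_succ, ZMod.natCast_zmod_val, Nat.cast_add, add_assoc]
    · have h1 : i.val + 1 = 2 * h := by
        have := ZMod.val_lt i
        omega
      have h2 : i + 1 = 0 := by
        have h3 : ((i.val + 1 : ℕ) : ZMod (2 * h)) = 0 := by rw [h1, ZMod.natCast_self]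
        rw [Nat.cast_succ, ZMod.natCast_zmod_val] at h3
        exact h3
      have h1' : range (2 * h) = range (i.val + 1) := by rw [h1]
      have h4 : ∑ k ∈ range i.val, c (k : ZMod (2 * h)) + c i = n := by
        rw [← hsum, sum_zmod, h1', Finset.sum_range_succ, ZMod.natCast_zmod_val]
      have h5 : (n : ZMod g) = 0 := (ZMod.natCast_eq_zero_iff n g).2 hg
      rw [h2, ZMod.val_zero, Finset.range_zero, Finset.sum_empty, Nat.cast_zero, add_zero,
        add_assoc, ← Nat.cast_add, h4, h5, add_zero]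

lemma mkSt_lab0 (c : ZMod (2 * h) → ℕ) (hcap : ∀ i, c i ≤ cap) (hsum : ∑ i, c i = n)
    (hg : g ∣ n) (l0 : ZMod g) : (mkSt c hcap hsum hg l0).lab 0 = l0 := by
  change l0 + _ = l0
  rw [ZMod.val_zero, Finset.range_zero, Finset.sum_empty, Nat.cast_zero, add_zero]

end Pool.OddHop
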