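import Pool.Agent.Work.MP_8f87b2_h69.F1

set_option autoImplicit false

namespace Pool.OddHop

open Finset

section General

variable {N : ℕ} [NeZero N]

lemma coset3 {t : ZMod N} {S : Finset (ZMod N)} (hS : ∀ i ∈ S, i + t ∈ S)
    (h3 : addOrderOf t = 3) (hc : S.card = 3) {x y : ZMod N} (hx : x ∈ S) (hy : y ∈ S) :
    (3 : ℕ) • (y - x) = 0 := by
  have ht : (3 : ℕ) • t = 0 := by rw [← h3]; exact addOrderOf_nsmul_eq_zero t
  have ht0 : t ≠ 0 := by
    rintro rfl
    rw [addOrderOf_zero] at h3
    omega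
  have h2 : t + t ≠ 0 := by
    intro hh
    apply ht0
    have : (3 : ℕ) • t = t + t + t := by rw [succ_nsmul, two_nsmul]
    rw [this, hh, zero_add] at ht
    exact ht
  have hsub : ({x, x + t, x + t + t} : Finset (ZMod N)) ⊆ S := by
    intro i hi
    simp only [mem_insert, mem_singleton] at hi
    rcases hi with rfl | rfl | rfl
    · exact hx
    · exact hS _ hx
    · exact hS _ (hS _ hx)
  have hcard : ({x, x + t, x + t + t} : Finset (ZMod N)).card = 3 := by
    rw [card_eq_three]
    refine ⟨x, x + t, x + t + t, ?_, ?_, ?_, rfl⟩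
    · intro hh
      apply ht0
      have := congrArg (fun z => z - x) hh
      simpa using this.symm
    · intro hh
      apply h2
      have := congrArg (fun z => z - x) hh
      simp only [sub_self, add_assoc, add_sub_cancel_left] at this
      exact this.symm
    · intro hh
      apply ht0
      have := congrArg (fun z => z - (x + t)) hh
      simpa using this.symm
  have heq := eq_of_subset_of_card_le hsub (by rw [hcard, hc])
  rw [← heq] at hy
  simp only [mem_insert, mem_singleton] at hy
  rcases hy with rfl | rfl | rfl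
  · simp
  · rw [add_sub_cancel_left]; exact ht
  · rw [add_assoc, add_sub_cancel_left, nsmul_add, ht, add_zero]

end General

variable {h cap g n : ℕ} [NeZero h]

lemma six_ne (hh : 2 ≤ h) (h3 : h ≠ 3) (x : ZMod (2 * h)) : (3 : ℕ) • ((x + 1) - (x - 1)) ≠ 0 := by
  intro hc
  have h1 : ((6 : ℕ) : ZMod (2 * h)) = 0 := by
    rw [← hc, nsmul_eq_mul]; push_cast; ring
  rw [ZMod.natCast_eq_zero_iff] at h1
  obtain ⟨k, hk⟩ := h1
  have h4 : h * k = 3 := by
    have : 2 * (h * k) = 2 * 3 := by rw [← mul_assoc]; omega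
    omega
  have h5 : h ∣ 3 := ⟨k, h4.symm⟩
  rcases (Nat.dvd_prime Nat.prime_three).1 h5 with h6 | h6 <;> omega

lemma six_ne' (hh : 2 ≤ h) (h3 : h ≠ 3) (x : ZMod (2 * h)) :
    (3 : ℕ) • ((x + 1 + 1) - x) ≠ 0 := by
  have := six_ne hh h3 (x + 1)
  rwa [show x + 1 + 1 - (x + 1 - 1) = x + 1 + 1 - x by ring] at this

/-- available places of alignment `al` -/
def St.avs (s : St h cap g n) (al : ZMod 2) : Finset (ZMod (2 * h)) :=
  univ.filter (fun i => par i = al ∧ s.Av i)

lemma mem_avs {s : St h cap g n} {al : ZMod 2} {i : ZMod (2 * h)} :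
    i ∈ s.avs al ↔ par i = al ∧ s.Av i := by simp [St.avs]

lemma avs_nonempty (hn : Odd n) (hcap : Odd cap) (s : St h cap g n) (al : ZMod 2) :
    (s.avs al).Nonempty := by
  have h1 : (s.odds al).Nonempty := by
    rw [← card_pos]
    have := odd_card_odd hn s al
    exact this.pos
  obtain ⟨i, hi⟩ := h1
  rw [mem_odds] at hi
  exact ⟨i, mem_avs.2 ⟨hi.1, av_of_odd hcap s i hi.2⟩⟩

lemma avs_inv {s : St h cap g n} {al : ZMod 2} {t : ZMod (2 * h)} (htp : par t = 0)
    (ht : ∀ i, par i = al → s.letter (i + t) = s.letter i) :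
    ∀ i ∈ s.avs al, i + t ∈ s.avs al := by
  intro i hi
  rw [mem_avs] at hi ⊢
  refine ⟨by rw [map_add, htp, add_zero, hi.1], ?_⟩
  rw [av_iff_avL, ht i hi.1, ← av_iff_avL]
  exact hi.2

/-- in a bad class the number of available places is at least 3, and if it is at most 4 then
it is 3 and the places form a coset of the subgroup of order 3 -/
lemma avs_bad (hn : Odd n) (hcap : Odd cap) {s : St h cap g n} {al : ZMod 2}
    (hb : s.Bad al) : 3 ≤ (s.avs al).card ∧ ((s.avs al).card ≤ 4 → (s.avs al).card = 3 ∧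
      ∀ x ∈ s.avs al, ∀ y ∈ s.avs al, (3 : ℕ) • (y - x) = 0) := by
  obtain ⟨t, ht0, htp, ht⟩ := hb
  have hL : ∀ i, par i = al → s.letter (i + t) = s.letter i := fun i hi => (ht i hi).1
  have ho := bad_order hn htp hL
  have hr := three_le_order ht0 ho
  have hinv := avs_inv htp hL
  have hd := order_dvd_card t _ hinv
  have hne := (avs_nonempty hn hcap s al).card_pos
  have hle := Nat.le_of_dvd hne hd
  refine ⟨by omega, ?_⟩
  intro h4
  have h5 : addOrderOf t = 3 := by
    obtain ⟨k, hk⟩ := ho
    omega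
  have h6 : (s.avs al).card = 3 := by
    rw [h5] at hd
    obtain ⟨k, hk⟩ := hd
    omega
  exact ⟨h6, fun x hx y hy => coset3 hinv h5 h6 hx hy⟩

section Rel

variable {R : St h cap g n → St h cap g n → Prop}

/-- two far toggles of different alignment at a state with both classes bad -/
lemma c0 (hn : Odd n) (hh : 2 ≤ h) (hR : Equivalence R)
    (hgood : ∀ s i, ¬ s.Bad (par i) → s.Av i → R s (s.tog i))
    {s : St h cap g n} (hB : ∀ al, s.Bad al) {p q : ZMod (2 * h)} (hpq : par q = par p + 1)
    (h1 : q ≠ p + 1) (h2 : p ≠ q + 1) (hp : s.Av p) (hq : s.Av q) :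
    R (s.tog p) (s.tog q) := by
  have hf := far_of_par hpq h1 h2
  have hqp : par q + 1 = par p := by rw [hpq, z2_add_two]
  have e1 : R (s.tog p) ((s.tog p).tog q) := by
    apply hgood
    · intro hb
      rw [hpq] at hb
      exact f1 hn hh hp (hB _) hb
    · exact (av_far hf).2 hq
  have e2 : R (s.tog q) ((s.tog q).tog p) := by
    apply hgood
    · intro hb
      rw [← hqp] at hb
      exact f1 hn hh hq (hB _) hb
    · exact (av_far hf.symm).2 hp
  rw [← tog_comm s hf] at e2
  exact hR.trans e1 (hR.symm e2)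

lemma exists_not_mem_of_card {α : Type*} [DecidableEq α] {S T : Finset α}
    (hc : T.card < S.card) : ∃ x ∈ S, x ∉ T := by
  by_contra hcon
  push_neg at hcon
  have : S ⊆ T := fun x hx => hcon x hx
  have := card_le_card this
  omega

lemma c1 (hn : Odd n) (hcap : Odd cap) (hh : 2 ≤ h) (h3 : h ≠ 3) (hR : Equivalence R)
    (hgood : ∀ s i, ¬ s.Bad (par i) → s.Av i → R s (s.tog i))
    {s : St h cap g n} (hB : ∀ al, s.Bad al) {p p' : ZMod (2 * h)} (hpp : par p' = par p)
    (hp : s.Av p) (hp' : s.Av p') :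
    R (s.tog p) (s.tog p') := by
  by_cases hex : ∃ q ∈ s.avs (par p + 1), q ≠ p + 1 ∧ q ≠ p - 1 ∧ q ≠ p' + 1 ∧ q ≠ p' - 1
  · obtain ⟨q, hq, h1, h2, h4, h5⟩ := hex
    rw [mem_avs] at hq
    have e1 := c0 hn hh hR hgood hB hq.1 h1 (fun hc => h2 (by rw [hc]; ring)) hp hq.2
    have e2 := c0 hn hh hR hgood hB (p := p') (by rw [hpp]; exact hq.1) h4
      (fun hc => h5 (by rw [hc]; ring)) hp' hq.2
    exact hR.trans e1 (hR.symm e2)
  · exfalso
    push_neg at hex
    obtain ⟨hc3, hc4⟩ := avs_bad hn hcap (hB (par p + 1))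
    have hsub : s.avs (par p + 1) ⊆ {p + 1, p - 1, p' + 1, p' - 1} := by
      intro q hq
      have := hex q hq
      simp only [mem_insert, mem_singleton]
      by_contra hcon
      push_neg at hcon
      exact hcon.2.2.2 (this hcon.1 hcon.2.1 hcon.2.2.1)
    obtain ⟨h6, h7⟩ := hc4 ((card_le_card hsub).trans card_le_four)
    have h8 : ¬ (p + 1 ∈ s.avs (par p + 1) ∧ p - 1 ∈ s.avs (par p + 1)) := by
      rintro ⟨ha, hb⟩
      exact six_ne hh h3 p (h7 _ hb _ ha)
    have h9 : ¬ (p' + 1 ∈ s.avs (par p + 1) ∧ p' - 1 ∈ s.avs (par p + 1)) := by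
      rintro ⟨ha, hb⟩
      exact six_ne hh h3 p' (h7 _ hb _ ha)
    have h10 : ∃ u v, s.avs (par p + 1) ⊆ {u, v} := by
      by_cases ha : p + 1 ∈ s.avs (par p + 1)
      · have hb : p - 1 ∉ s.avs (par p + 1) := fun hb => h8 ⟨ha, hb⟩
        by_cases hc : p' + 1 ∈ s.avs (par p + 1)
        · have hd : p' - 1 ∉ s.avs (par p + 1) := fun hd => h9 ⟨hc, hd⟩
          refine ⟨p + 1, p' + 1, fun q hq => ?_⟩
          have := hsub hq
          simp only [mem_insert, mem_singleton] at this ⊢
          rcases this with e | e | e | e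
          · exact Or.inl e
          · rw [e] at hq; exact absurd hq hb
          · exact Or.inr e
          · rw [e] at hq; exact absurd hq hd
        · refine ⟨p + 1, p' - 1, fun q hq => ?_⟩
          have := hsub hq
          simp only [mem_insert, mem_singleton] at this ⊢
          rcases this with e | e | e | e
          · exact Or.inl e
          · rw [e] at hq; exact absurd hq hb
          · rw [e] at hq; exact absurd hq hc
          · exact Or.inr e
      · by_cases hc : p' + 1 ∈ s.avs (par p + 1)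
        · have hd : p' - 1 ∉ s.avs (par p + 1) := fun hd => h9 ⟨hc, hd⟩
          refine ⟨p - 1, p' + 1, fun q hq => ?_⟩
          have := hsub hq
          simp only [mem_insert, mem_singleton] at this ⊢
          rcases this with e | e | e | e
          · rw [e] at hq; exact absurd hq ha
          · exact Or.inl e
          · exact Or.inr e
          · rw [e] at hq; exact absurd hq hd
        · refine ⟨p - 1, p' - 1, fun q hq => ?_⟩
          have := hsub hq
          simp only [mem_insert, mem_singleton] at this ⊢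
          rcases this with e | e | e | e
          · rw [e] at hq; exact absurd hq ha
          · exact Or.inl e
          · rw [e] at hq; exact absurd hq hc
          · exact Or.inr e
    obtain ⟨u, v, huv⟩ := h10
    have := (card_le_card huv).trans card_le_two
    omega

lemma c2 (hn : Odd n) (hcap : Odd cap) (hh : 2 ≤ h) (h3 : h ≠ 3) (hR : Equivalence R)
    (hgood : ∀ s i, ¬ s.Bad (par i) → s.Av i → R s (s.tog i))
    {s : St h cap g n} (hB : ∀ al, s.Bad al) {p p' : ZMod (2 * h)}
    (hp : s.Av p) (hp' : s.Av p') :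
    R (s.tog p) (s.tog p') := by
  rcases z2_cases (par p) (par p') with hpp | hpp
  · exact c1 hn hcap hh h3 hR hgood hB hpp hp hp'
  · obtain ⟨hc3, _⟩ := avs_bad hn hcap (hB (par p))
    obtain ⟨r, hr, hr'⟩ := exists_not_mem_of_card (S := s.avs (par p))
      (T := {p' + 1, p' - 1}) (lt_of_le_of_lt card_le_two (by omega))
    rw [mem_avs] at hr
    simp only [mem_insert, mem_singleton, not_or] at hr'
    have e1 := c1 hn hcap hh h3 hR hgood hB hr.1 hp hr.2
    have e2 := c0 hn hh hR hgood hB (p := r) (q := p') (by rw [hr.1]; exact hpp)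
      (fun hc => hr'.2 (by rw [hc]; ring)) hr'.1 hr.2 hp'
    exact hR.trans e1 e2

/-- a step inside a bad class with a far available toggle of the other alignment -/
lemma d0 (hn : Odd n) (hh : 2 ≤ h) (hR : Equivalence R)
    (hgood : ∀ s i, ¬ s.Bad (par i) → s.Av i → R s (s.tog i))
    {s : St h cap g n} {p q : ZMod (2 * h)} (hb : s.Bad (par p)) (hb1 : ¬ s.Bad (par p + 1))
    (hb2 : ¬ (s.tog p).Bad (par p + 1)) (hpq : par q = par p + 1)
    (h1 : q ≠ p + 1) (h2 : p ≠ q + 1) (hp : s.Av p) (hq : s.Av q) : R s (s.tog p) := by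
  have hf := far_of_par hpq h1 h2
  have hqp : par q + 1 = par p := by rw [hpq, z2_add_two]
  have e1 : R s (s.tog q) := hgood s q (by rw [hpq]; exact hb1) hq
  have e2 : R (s.tog q) ((s.tog q).tog p) := by
    apply hgood
    · intro hb'
      rw [← hqp] at hb'
      exact f1 hn hh hq (by rw [hqp]; exact hb) hb'
    · exact (av_far hf.symm).2 hp
  have e3 : R (s.tog p) ((s.tog p).tog q) := by
    apply hgood
    · rw [hpq]; exact hb2
    · exact (av_far hf).2 hq
  rw [← tog_comm s hf] at e2
  exact hR.trans e1 (hR.trans e2 (hR.symm e3))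

end Rel

/-- if the available places of the other alignment are next to `p`, a toggle at a place `p'`
which is not near `p` opens two places and makes the class good -/
lemma claimB (hn : Odd n) (hcap : Odd cap) (hh : 2 ≤ h) (h3 : h ≠ 3)
    {u : St h cap g n} {p p' : ZMod (2 * h)} (hpp : par p' = par p) (hp' : u.Av p')
    (hsub : ∀ q ∈ u.avs (par p + 1), q = p + 1 ∨ q = p - 1)
    (h1 : p' ≠ p) (h2 : p' ≠ p + 1 + 1) (h4 : p' + 1 + 1 ≠ p) :
    (p' + 1 ∈ (u.tog p').avs (par p + 1) ∧ p' - 1 ∈ (u.tog p').avs (par p + 1)) ∧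
      ¬ (u.tog p').Bad (par p + 1) := by
  have hpar1 : par (p' + 1) = par p + 1 := by rw [par_add_one, hpp]
  have hpar2 : par (p' - 1) = par p + 1 := by
    rw [map_sub, map_one, hpp, sub_eq_add_neg]
    congr 1
  have hn1 : ¬ u.Av (p' + 1) := by
    intro ha
    rcases hsub (p' + 1) (mem_avs.2 ⟨hpar1, ha⟩) with e | e
    · exact h1 (add_right_cancel e)
    · exact h4 (by rw [e]; ring)
  have hn2 : ¬ u.Av (p' - 1) := by
    intro ha
    rcases hsub (p' - 1) (mem_avs.2 ⟨hpar2, ha⟩) with e | e
    · exact h2 (by rw [← e]; ring)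
    · exact h1 (by
        have := congrArg (fun z => z + 1) e
        simpa using this)
  have he1 : (u.c (p' + 1) + u.c (p' + 1 + 1)) % 2 = 0 := by
    by_contra hc
    exact hn1 (av_of_odd hcap u _ (by omega))
  have he2 : (u.c (p' - 1) + u.c p') % 2 = 0 := by
    by_contra hc
    apply hn2
    apply av_of_odd hcap u
    rw [sub_add_cancel]
    omega
  have ha' := hp'
  unfold St.Av avXY at ha'
  have hm1 : p' + 1 ∈ (u.tog p').avs (par p + 1) := by
    rw [mem_avs]
    refine ⟨hpar1, av_of_odd hcap _ _ ?_⟩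
    rw [tog_c_succ hp', tog_c_other u (two_ne hh p') (add_two_ne p')]
    unfold ny
    split_ifs <;> omega
  have hm2 : p' - 1 ∈ (u.tog p').avs (par p + 1) := by
    rw [mem_avs]
    refine ⟨hpar2, av_of_odd hcap _ _ ?_⟩
    have h5 : p' - 1 ≠ p' := by
      intro hc
      apply add_one_ne (p' - 1)
      rw [sub_add_cancel]; exact hc.symm
    have h6 : p' - 1 ≠ p' + 1 := by
      intro hc
      apply two_ne hh (p' - 1)
      rw [sub_add_cancel]; exact hc.symm
    rw [sub_add_cancel, tog_c_self hp', tog_c_other u h5 h6]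
    unfold nx
    split_ifs <;> omega
  refine ⟨⟨hm1, hm2⟩, ?_⟩
  intro hbad
  obtain ⟨_, hc4⟩ := avs_bad hn hcap hbad
  have hsub' : (u.tog p').avs (par p + 1) ⊆ {p + 1, p - 1, p' + 1, p' - 1} := by
    intro q hq
    simp only [mem_insert, mem_singleton]
    by_cases e1 : q = p' + 1
    · exact Or.inr (Or.inr (Or.inl e1))
    · by_cases e2 : q = p' - 1
      · exact Or.inr (Or.inr (Or.inr e2))
      · rw [mem_avs] at hq
        have e3 : q ≠ p' := by
          intro hc
          rw [hc, hpp] at hq
          exact z2_add_one_ne _ hq.1.symm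
        have e4 : q + 1 ≠ p' := fun hc => e2 (by rw [← hc]; ring)
        have e5 : q + 1 ≠ p' + 1 := fun hc => e3 (add_right_cancel hc)
        have e6 : u.Av q := by
          have := hq.2
          unfold St.Av at this ⊢
          rwa [tog_c_other u e3 e1, tog_c_other u e4 e5] at this
        rcases hsub q (mem_avs.2 ⟨hq.1, e6⟩) with e | e
        · exact Or.inl e
        · exact Or.inr (Or.inl e)
  obtain ⟨_, h7⟩ := hc4 ((card_le_card hsub').trans card_le_four)
  exact six_ne hh h3 p' (h7 _ hm2 _ hm1)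

section Rel

variable {R : St h cap g n → St h cap g n → Prop}

/-- step inside a bad class, `h <> 3` -/
lemma d1 (hn : Odd n) (hcap : Odd cap) (hh : 2 ≤ h) (h3 : h ≠ 3) (hR : Equivalence R)
    (hgood : ∀ s i, ¬ s.Bad (par i) → s.Av i → R s (s.tog i))
    {s : St h cap g n} {p : ZMod (2 * h)} (hb : s.Bad (par p)) (hb1 : ¬ s.Bad (par p + 1))
    (hb2 : ¬ (s.tog p).Bad (par p + 1)) (hp : s.Av p) : R s (s.tog p) := by
  by_cases hex : ∃ q ∈ s.avs (par p + 1), q ≠ p + 1 ∧ q ≠ p - 1
  · obtain ⟨q, hq, h1, h2⟩ := hex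
    rw [mem_avs] at hq
    exact d0 hn hh hR hgood hb hb1 hb2 hq.1 h1 (fun hc => h2 (by rw [hc]; ring)) hp hq.2
  · have hsub : ∀ q ∈ s.avs (par p + 1), q = p + 1 ∨ q = p - 1 := by
      intro q hq
      by_contra hc
      push_neg at hc
      exact hex ⟨q, hq, hc.1, hc.2⟩
    have hsub' : ∀ q ∈ (s.tog p).avs (par p + 1), q = p + 1 ∨ q = p - 1 := by
      intro q hq
      by_contra hc
      push_neg at hc
      rw [mem_avs] at hq
      have e3 : q ≠ p := ne_of_par hq.1
      have e4 : q + 1 ≠ p := fun hc' => hc.2 (by rw [← hc']; ring)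
      have e5 : q + 1 ≠ p + 1 := fun hc' => e3 (add_right_cancel hc')
      have e6 : s.Av q := by
        have := hq.2
        unfold St.Av at this ⊢
        rwa [tog_c_other s e3 hc.1, tog_c_other s e4 e5] at this
      rcases hsub q (mem_avs.2 ⟨hq.1, e6⟩) with e | e
      · exact hc.1 e
      · exact hc.2 e
    -- choose p'
    have hp'ex : ∃ p' ∈ s.avs (par p), p' ≠ p ∧ p' ≠ p + 1 + 1 ∧ p' + 1 + 1 ≠ p := by
      by_contra hcon
      push_neg at hcon
      obtain ⟨hc3, hc4⟩ := avs_bad hn hcap hb
      have hs3 : s.avs (par p) ⊆ {p, p + 1 + 1, p - 1 - 1} := by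
        intro q hq
        simp only [mem_insert, mem_singleton]
        by_cases e1 : q = p
        · exact Or.inl e1
        · by_cases e2 : q = p + 1 + 1
          · exact Or.inr (Or.inl e2)
          · have := hcon q hq e1 e2
            exact Or.inr (Or.inr (by rw [← this]; ring))
      have hle : ({p, p + 1 + 1, p - 1 - 1} : Finset (ZMod (2 * h))).card ≤ 3 := card_le_three
      have hle2 := (card_le_card hs3)
      obtain ⟨h6, h7⟩ := hc4 (by omega)
      have heq := eq_of_subset_of_card_le hs3 (by omega)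
      have hm1 : p ∈ s.avs (par p) := by rw [heq]; simp
      have hm2 : p + 1 + 1 ∈ s.avs (par p) := by rw [heq]; simp
      exact six_ne' hh h3 p (h7 _ hm1 _ hm2)
    obtain ⟨p', hp'm, h1, h2, h4⟩ := hp'ex
    rw [mem_avs] at hp'm
    obtain ⟨hpp, hp'⟩ := hp'm
    have hfar : Far p p' := far_of_par_eq hpp h1
    obtain ⟨⟨hm1, _⟩, hnb1⟩ := claimB hn hcap hh h3 hpp hp' hsub h1 h2 h4
    have hp'2 : (s.tog p).Av p' := (av_far hfar).2 hp'
    obtain ⟨_, hnb2⟩ := claimB hn hcap hh h3 hpp hp'2 hsub' h1 h2 h4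
    -- step 1
    have st1 : R s (s.tog p') := by
      obtain ⟨q, hq⟩ := avs_nonempty hn hcap s (par p + 1)
      have hq' := hsub q hq
      rw [mem_avs] at hq
      refine d0 hn hh hR hgood (p := p') (q := q) (by rw [hpp]; exact hb)
        (by rw [hpp]; exact hb1) (by rw [hpp]; exact hnb1) (by rw [hpp]; exact hq.1) ?_ ?_ hp' hq.2
      · rcases hq' with e | e
        · rw [e]; intro hc; exact h1 (add_right_cancel hc).symm
        · rw [e]; intro hc
          apply h4
          rw [← hc]; ring
      · rcases hq' with e | e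
        · rw [e]; exact h2
        · rw [e, sub_add_cancel]; exact h1
    -- step 3
    have st3 : R (s.tog p) ((s.tog p).tog p') := by
      obtain ⟨q, hq⟩ := avs_nonempty hn hcap (s.tog p) (par p + 1)
      have hq' := hsub' q hq
      rw [mem_avs] at hq
      refine d0 hn hh hR hgood (p := p') (q := q) ?_
        (by rw [hpp]; exact hb2) (by rw [hpp]; exact hnb2) (by rw [hpp]; exact hq.1) ?_ ?_ hp'2 hq.2
      · rw [hpp]; exact (bad_tog_same s p).2 hb
      · rcases hq' with e | e
        · rw [e]; intro hc; exact h1 (add_right_cancel hc).symm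
        · rw [e]; intro hc
          apply h4
          rw [← hc]; ring
      · rcases hq' with e | e
        · rw [e]; exact h2
        · rw [e, sub_add_cancel]; exact h1
    -- step 2
    have st2 : R (s.tog p') ((s.tog p').tog p) := by
      rw [mem_avs] at hm1
      refine d0 hn hh hR hgood (p := p) (q := p' + 1) ?_ hnb1 ?_ hm1.1 ?_ ?_
        ((av_far hfar.symm).2 hp) hm1.2
      · rw [← hpp]; exact (bad_tog_same s p').2 (by rw [hpp]; exact hb)
      · rw [← tog_comm s hfar]; exact hnb2
      · intro hc; exact h1 (add_right_cancel hc)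
      · exact h4.symm
    rw [← tog_comm s hfar] at st2
    exact hR.trans st1 (hR.trans st2 (hR.symm st3))

end Rel

end Pool.OddHop
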