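import Pool.Agent.Work.MP_8f87b2_h69.Step

set_option autoImplicit false

namespace Pool.OddHop

open Finset

section Shift

variable {h cap g n : ℕ} [NeZero h]

lemma shift_av (s : St h cap g n) (i : ZMod (2 * h)) : s.shift.Av i ↔ s.Av (i + 1) := Iff.rfl

lemma shift_tog (s : St h cap g n) (i : ZMod (2 * h)) :
    (s.tog (i + 1)).shift = s.shift.tog i := by
  by_cases ha : s.Av (i + 1)
  · have ha' : s.shift.Av i := ha
    apply St.ext_lab (j := i)
    · funext j
      rw [tog_c ha']
      change (s.tog (i + 1)).c (j + 1) = _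
      rw [tog_c ha]
      by_cases h1 : j = i
      · subst h1
        rw [togc_self, togc_self]; rfl
      · by_cases h2 : j = i + 1
        · subst h2
          rw [togc_succ, togc_succ]; rfl
        · rw [togc_other _ h1 h2, togc_other _ (fun hc => h1 (add_right_cancel hc))
            (fun hc => h2 (add_right_cancel hc))]
          rfl
    · rw [tog_lab_other _ (add_one_ne i).symm]
      change (s.tog (i + 1)).lab (i + 1) = s.lab (i + 1)
      rw [tog_lab_other _ (add_one_ne (i + 1)).symm]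
  · have ha' : ¬ s.shift.Av i := ha
    rw [tog_of_not ha, tog_of_not ha']

lemma shift_bad {s : St h cap g n} {al : ZMod 2} (hb : s.Bad (al + 1)) : s.shift.Bad al := by
  obtain ⟨t, ht0, htp, ht⟩ := hb
  refine ⟨t, ht0, htp, ?_⟩
  intro i hi
  have h1 := ht (i + 1) (by rw [par_add_one, hi])
  have h2 : i + t + 1 = i + 1 + t := by ring
  constructor
  · have h3 := h1.1
    unfold St.letter at h3 ⊢
    change (s.c (i + t + 1) + s.c (i + t + 1 + 1), s.c (i + t + 1) / 2)
      = (s.c (i + 1) + s.c (i + 1 + 1), s.c (i + 1) / 2)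
    rw [h2]
    exact h3
  · change s.lab (i + t + 1) = s.lab (i + 1)
    rw [h2]
    exact h1.2

lemma shift2_bad {s : St h cap g n} {al : ZMod 2} (hb : s.Bad al) : s.shift.shift.Bad al := by
  apply shift_bad
  apply shift_bad
  rw [z2_add_two]
  exact hb

end Shift

section Three

variable {cap g n : ℕ}

lemma all6 (j : ZMod (2 * 3)) : j = 0 ∨ j = 1 ∨ j = 2 ∨ j = 3 ∨ j = 4 ∨ j = 5 := by
  revert j; decide

lemma six6 : (6 : ZMod (2 * 3)) = 0 := by decide

lemma par_n (p : ZMod (2 * 3)) (k : ℕ) (hk : k % 2 = 0) : par (h := 3) (p + (k : ZMod (2 * 3))) = par p := by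
  rw [map_add, map_natCast]
  have : (k : ZMod 2) = 0 := by rw [ZMod.natCast_eq_zero_iff]; omega
  rw [this, add_zero]

lemma par_n1 (p : ZMod (2 * 3)) (k : ℕ) (hk : k % 2 = 1) :
    par (h := 3) (p + (k : ZMod (2 * 3))) = par p + 1 := by
  rw [map_add, map_natCast]
  have : (k : ZMod 2) = 1 := by
    have h1 : k = 2 * (k / 2) + 1 := by omega
    rw [h1]
    push_cast
    have : (2 : ZMod 2) = 0 := by decide
    rw [this]; ring
  rw [this]

lemma par_p2 (p : ZMod (2 * 3)) : par (h := 3) (p + 2) = par p := by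
  have := par_n p 2 (by norm_num); simpa using this

lemma par_p4 (p : ZMod (2 * 3)) : par (h := 3) (p + 4) = par p := by
  have := par_n p 4 (by norm_num); simpa using this

lemma par_p3 (p : ZMod (2 * 3)) : par (h := 3) (p + 3) = par p + 1 := by
  have := par_n1 p 3 (by norm_num); simpa using this

lemma par_p5 (p : ZMod (2 * 3)) : par (h := 3) (p + 5) = par p + 1 := by
  have := par_n1 p 5 (by norm_num); simpa using this

/-- places of the same parity -/
lemma same_par {p i : ZMod (2 * 3)} (hi : par (h := 3) i = par p) : i = p ∨ i = p + 2 ∨ i = p + 4 := by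
  obtain ⟨j, rfl⟩ : ∃ j, i = p + j := ⟨i - p, by ring⟩
  rcases all6 j with rfl | rfl | rfl | rfl | rfl | rfl
  · left; ring
  · exfalso; rw [par_add_one] at hi; exact z2_add_one_ne _ hi
  · right; left; rfl
  · exfalso; rw [par_p3] at hi; exact z2_add_one_ne _ hi
  · right; right; rfl
  · exfalso; rw [par_p5] at hi; exact z2_add_one_ne _ hi

lemma diff_par {p i : ZMod (2 * 3)} (hi : par (h := 3) i = par p + 1) :
    i = p + 1 ∨ i = p + 3 ∨ i = p + 5 := by
  obtain ⟨j, rfl⟩ : ∃ j, i = p + j := ⟨i - p, by ring⟩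
  rcases all6 j with rfl | rfl | rfl | rfl | rfl | rfl
  · exfalso; rw [add_zero] at hi; exact z2_add_one_ne _ hi.symm
  · left; rfl
  · exfalso; rw [par_p2] at hi; exact z2_add_one_ne _ hi.symm
  · right; left; rfl
  · exfalso; rw [par_p4] at hi; exact z2_add_one_ne _ hi.symm
  · right; right; rfl

lemma per2 {s : St 3 cap g n} {al : ZMod 2} (hb : s.Bad al) (i : ZMod (2 * 3))
    (hi : par (h := 3) i = al) : s.letter (i + 2) = s.letter i ∧ s.lab (i + 2) = s.lab i := by
  obtain ⟨t, ht0, htp, ht⟩ := hb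
  have ht' : t = 0 ∨ t = 0 + 2 ∨ t = 0 + 4 := same_par (by rw [htp, map_zero])
  rcases ht' with e | e | e
  · exact absurd e ht0
  · rw [zero_add] at e
    rw [e] at ht
    exact ht i hi
  · rw [zero_add] at e
    rw [e] at ht
    have h1 := ht i hi
    have h2 := ht (i + 4) (by rw [par_p4, hi])
    have h3 : i + 4 + 4 = i + 2 := by
      have : i + 4 + 4 = i + 2 + 6 := by ring
      rw [this, six6, add_zero]
    rw [h3] at h2
    exact ⟨h2.1.trans h1.1, h2.2.trans h1.2⟩

lemma letter_fst (s : St 3 cap g n) (i : ZMod (2 * 3)) :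
    (s.letter i).1 = s.c i + s.c (i + 1) := rfl

lemma letter_snd (s : St 3 cap g n) (i : ZMod (2 * 3)) :
    (s.letter i).2 = s.c i / 2 := rfl

/-- numeric facts in a bad class -/
lemma bad_facts {s : St 3 cap g n} {p : ZMod (2 * 3)} (hb : s.Bad (par p)) :
    s.c (p + 2) + s.c (p + 3) = s.c p + s.c (p + 1) ∧
    s.c (p + 4) + s.c (p + 5) = s.c p + s.c (p + 1) ∧
    s.c (p + 2) / 2 = s.c p / 2 ∧ s.c (p + 4) / 2 = s.c p / 2 := by
  have h1 := (per2 hb p rfl).1
  have h2 := (per2 hb (p + 2) (par_p2 p)).1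
  have h1a := congrArg Prod.fst h1
  have h1b := congrArg Prod.snd h1
  have h2a := congrArg Prod.fst h2
  have h2b := congrArg Prod.snd h2
  rw [letter_fst, letter_fst] at h1a h2a
  rw [letter_snd, letter_snd] at h1b h2b
  rw [show p + 2 + 1 = p + 3 by ring] at h1a h2a
  rw [show p + 2 + 2 = p + 4 by ring] at h2a h2b
  rw [show p + 4 + 1 = p + 5 by ring] at h2a
  omega

lemma const_bad {s : St 3 cap g n} {p : ZMod (2 * 3)} (hb : s.Bad (par p))
    (hc1 : s.c (p + 2) = s.c p) (hc2 : s.c (p + 4) = s.c p) : s.Bad (par p + 1) := by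
  obtain ⟨f1, f2, _, _⟩ := bad_facts hb
  have l1 := (per2 hb p rfl).2
  have l2 := (per2 hb (p + 2) (par_p2 p)).2
  have l3 := (per2 hb (p + 4) (par_p4 p)).2
  rw [show p + 2 + 2 = p + 4 by ring] at l2
  rw [show p + 4 + 2 = p + 6 by ring, six6, add_zero] at l3
  have g1 := s.hlab p
  have g2 := s.hlab (p + 2)
  have g3 := s.hlab (p + 4)
  rw [show p + 2 + 1 = p + 3 by ring] at g2
  rw [show p + 4 + 1 = p + 5 by ring] at g3
  refine ⟨2, ?_, ?_, ?_⟩
  · decide
  · have := par_p2 (0 : ZMod (2 * 3))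
    rw [zero_add, map_zero] at this
    exact this
  · intro i hi
    unfold St.letter
    rcases diff_par hi with rfl | rfl | rfl
    · rw [show p + 1 + 2 = p + 3 by ring, show p + 3 + 1 = p + 4 by ring,
        show p + 1 + 1 = p + 2 by ring]
      have e : s.c (p + 3) = s.c (p + 1) := by omega
      rw [e, hc1, hc2, g1, g2, hc1, l1]
      exact ⟨rfl, rfl⟩
    · rw [show p + 3 + 2 = p + 5 by ring, show p + 3 + 1 = p + 4 by ring,
        show p + 5 + 1 = p + 6 by ring, six6, add_zero]
      have e : s.c (p + 5) = s.c (p + 3) := by omega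
      rw [e, hc2, g2, g3, hc1, hc2, l2]
      exact ⟨rfl, rfl⟩
    · rw [show p + 5 + 2 = p + 1 + 6 by ring, six6, add_zero,
        show p + 5 + 1 = p + 6 by ring, six6, add_zero, show p + 1 + 1 = p + 2 by ring]
      have e : s.c (p + 5) = s.c (p + 1) := by omega
      rw [e, hc1, g3, g1, hc2, l3]
      exact ⟨rfl, rfl⟩

lemma pair_le (s : St 3 cap g n) (i : ZMod (2 * 3)) : s.c i + s.c (i + 1) ≤ n := by
  have h1 := sum_pairs s (par i)
  have h2 := Finset.single_le_sum (f := fun i : ZMod (2 * 3) => s.c i + s.c (i + 1))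
    (s := univ.filter (fun j : ZMod (2 * 3) => par (h := 3) j = par i))
    (fun _ _ => Nat.zero_le _) (mem_filter.2 ⟨mem_univ i, rfl⟩)
  exact h2.trans h1.le

lemma T_odd (hn : Odd n) {s : St 3 cap g n} {p : ZMod (2 * 3)} (hb : s.Bad (par p)) :
    (s.c p + s.c (p + 1)) % 2 = 1 := by
  obtain ⟨f1, f2, _, _⟩ := bad_facts hb
  have h1 : (s.odds (par p)).Nonempty := by
    rw [← card_pos]
    exact (odd_card_odd hn s (par p)).pos
  obtain ⟨i, hi⟩ := h1
  rw [mem_odds] at hi
  obtain ⟨hi1, hi2⟩ := hi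
  rcases same_par hi1 with rfl | rfl | rfl
  · exact hi2
  · rw [show p + 2 + 1 = p + 3 by ring] at hi2; omega
  · rw [show p + 4 + 1 = p + 5 by ring] at hi2; omega

lemma ne6 (p : ZMod (2 * 3)) {a b : ZMod (2 * 3)} (hab : a ≠ b) : p + a ≠ p + b :=
  fun hc => hab (add_left_cancel hc)

lemma ne6' (p : ZMod (2 * 3)) {a : ZMod (2 * 3)} (hab : a ≠ 0) : p ≠ p + a := by
  intro hc
  apply hab
  have := congrArg (fun z => z - p) hc
  simpa using this.symm

/-- the key identity for the word `(0,1,0)` -/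
lemma key010 {s : St 3 cap g n} {p : ZMod (2 * 3)} (hb : s.Bad (par p))
    (hT : (s.c p + s.c (p + 1)) % 2 = 1) (hp : s.Av p) (hp4 : s.Av (p + 4))
    (b0 : s.c p % 2 = 0) (b1 : s.c (p + 2) % 2 = 1) (b2 : s.c (p + 4) % 2 = 0) :
    (s.tog (p + 4)).shift.shift = s.tog p := by
  obtain ⟨f1, f2, f3, f4⟩ := bad_facts hb
  have l1 := (per2 hb p rfl).2
  have hap := hp
  unfold St.Av avXY at hap
  have hx0 : nx (s.c p) = s.c p + 1 := by unfold nx; rw [if_pos b0]
  have hx4 : nx (s.c (p + 4)) = s.c (p + 4) + 1 := by unfold nx; rw [if_pos b2]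
  have hy0 : ny (s.c p) (s.c (p + 1)) = s.c (p + 1) - 1 := by unfold ny; rw [if_pos b0]
  have hy4 : ny (s.c (p + 4)) (s.c (p + 5)) = s.c (p + 5) - 1 := by unfold ny; rw [if_pos b2]
  have e45 : p + 4 + 1 = p + 5 := by ring
  apply St.ext_lab (j := p)
  · funext i
    change (s.tog (p + 4)).c (i + 1 + 1) = _
    rw [tog_c hp4, tog_c hp]
    obtain ⟨j, rfl⟩ : ∃ j, i = p + j := ⟨i - p, by ring⟩
    rcases all6 j with rfl | rfl | rfl | rfl | rfl | rfl
    · rw [add_zero, togc_self, show p + 1 + 1 = p + 2 by ring,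
        togc_other _ (ne6 p (by decide)) (by rw [e45]; exact ne6 p (by decide)), hx0]
      omega
    · rw [togc_succ, show p + 1 + 1 + 1 = p + 3 by ring,
        togc_other _ (ne6 p (by decide)) (by rw [e45]; exact ne6 p (by decide)), hy0]
      omega
    · rw [show p + 2 + 1 + 1 = p + 4 by ring, togc_self,
        togc_other _ (ne6' p (by decide)).symm (ne6 p (by decide)), hx4]
      omega
    · rw [show p + 3 + 1 + 1 = p + 4 + 1 by ring, togc_succ, e45,
        togc_other _ (ne6' p (by decide)).symm (ne6 p (by decide)), hy4]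
      omega
    · rw [show p + 4 + 1 + 1 = p + 6 by ring, six6, add_zero,
        togc_other _ (ne6' p (by decide)) (by rw [e45]; exact ne6' p (by decide)),
        togc_other _ (ne6' p (by decide)).symm (ne6 p (by decide))]
      omega
    · rw [show p + 5 + 1 + 1 = p + 1 + 6 by ring, six6, add_zero,
        togc_other _ (ne6 p (by decide)) (by rw [e45]; exact ne6 p (by decide)),
        togc_other _ (ne6' p (by decide)).symm (ne6 p (by decide))]
      omega
  · change (s.tog (p + 4)).lab (p + 1 + 1) = _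
    rw [show p + 1 + 1 = p + 2 by ring, tog_lab_other _ (by rw [e45]; exact ne6 p (by decide)),
      tog_lab_other _ (add_one_ne p).symm, l1]

variable {R : St 3 cap g n → St 3 cap g n → Prop}

lemma d2a (hn : Odd n) (hcn : n ≤ cap) (hR : Equivalence R)
    (hshift : ∀ s, R s s.shift)
    (hgood : ∀ s i, ¬ s.Bad (par i) → s.Av i → R s (s.tog i))
    {s : St 3 cap g n} {p : ZMod (2 * 3)} (hb : s.Bad (par p)) (hb1 : ¬ s.Bad (par p + 1))
    (hb2 : ¬ (s.tog p).Bad (par p + 1)) (hp : s.Av p)
    (b0 : s.c p % 2 = 0) (b1 : s.c (p + 2) % 2 = 1) (b2 : s.c (p + 4) % 2 = 0) :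
    R s (s.tog p) := by
  obtain ⟨f1, f2, f3, f4⟩ := bad_facts hb
  have hT := T_odd hn hb
  have hp4 : s.Av (p + 4) := by
    have := pair_le s (p + 4)
    unfold St.Av avXY
    rw [show p + 4 + 1 = p + 5 by ring] at this ⊢
    left
    omega
  have hkey := key010 hb hT hp hp4 b0 b1 b2
  have hq : s.Av (p + 1) := by
    have := pair_le s (p + 1)
    unfold St.Av avXY
    rw [show p + 1 + 1 = p + 2 by ring] at this ⊢
    right
    omega
  have e1 : R s (s.tog (p + 4)) := by
    refine d0 hn (by norm_num) hR hgood (p := p + 4) (q := p + 1) (by rw [par_p4]; exact hb)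
      (by rw [par_p4]; exact hb1) ?_ (by rw [par_p4, par_add_one]) ?_ ?_ hp4 hq
    · rw [par_p4]
      intro hbad
      have := shift2_bad hbad
      rw [hkey] at this
      exact hb2 this
    · rw [show p + 4 + 1 = p + 5 by ring]; exact ne6 p (by decide)
    · rw [show p + 1 + 1 = p + 2 by ring]; exact ne6 p (by decide)
  have e2 := hR.trans (hshift (s.tog (p + 4))) (hshift (s.tog (p + 4)).shift)
  rw [hkey] at e2
  exact hR.trans e1 e2

lemma d2 (hn : Odd n) (hcn : n ≤ cap) (hR : Equivalence R)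
    (hshift : ∀ s, R s s.shift)
    (hgood : ∀ s i, ¬ s.Bad (par i) → s.Av i → R s (s.tog i))
    {s : St 3 cap g n} {p : ZMod (2 * 3)} (hb : s.Bad (par p)) (hb1 : ¬ s.Bad (par p + 1))
    (hb2 : ¬ (s.tog p).Bad (par p + 1)) (hp : s.Av p) :
    R s (s.tog p) := by
  obtain ⟨f1, f2, f3, f4⟩ := bad_facts hb
  have hT := T_odd hn hb
  have hap := hp
  unfold St.Av avXY at hap
  have hx : (s.tog p).c p % 2 = 1 - s.c p % 2 ∧ (s.tog p).c p / 2 = s.c p / 2 := by
    rw [tog_c_self hp]
    unfold nx
    split_ifs <;> omega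
  have hx2 : (s.tog p).c (p + 2) = s.c (p + 2) :=
    tog_c_other s (ne6' p (by decide)).symm (ne6 p (by decide))
  have hx4 : (s.tog p).c (p + 4) = s.c (p + 4) :=
    tog_c_other s (ne6' p (by decide)).symm (ne6 p (by decide))
  rcases Nat.mod_two_eq_zero_or_one (s.c (p + 2)) with b1 | b1 <;>
    rcases Nat.mod_two_eq_zero_or_one (s.c (p + 4)) with b2 | b2
  · exfalso
    rcases Nat.mod_two_eq_zero_or_one (s.c p) with b0 | b0
    · exact hb1 (const_bad hb (by omega) (by omega))
    · exact hb2 (const_bad ((bad_tog_same s p).2 hb) (by omega) (by omega))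
  · -- (.,0,1): far toggle p+3
    have hq : s.Av (p + 3) := by
      have := pair_le s (p + 3)
      unfold St.Av avXY
      rw [show p + 3 + 1 = p + 4 by ring] at this ⊢
      right
      omega
    refine d0 hn (by norm_num) hR hgood (q := p + 3) hb hb1 hb2 (par_p3 p) ?_ ?_ hp hq
    · exact ne6 p (by decide)
    · rw [show p + 3 + 1 = p + 4 by ring]; exact ne6' p (by decide)
  · rcases Nat.mod_two_eq_zero_or_one (s.c p) with b0 | b0
    · exact d2a hn hcn hR hshift hgood hb hb1 hb2 hp b0 b1 b2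
    · have := d2a hn hcn hR hshift hgood (s := s.tog p) (p := p)
        ((bad_tog_same s p).2 hb) hb2 (by rw [tog_tog]; exact hb1) (av_tog hp)
        (by omega) (by omega) (by omega)
      rw [tog_tog] at this
      exact hR.symm this
  · exfalso
    rcases Nat.mod_two_eq_zero_or_one (s.c p) with b0 | b0
    · exact hb2 (const_bad ((bad_tog_same s p).2 hb) (by omega) (by omega))
    · exact hb1 (const_bad hb (by omega) (by omega))

lemma b3 {s : St 3 cap g n} (hB : ∀ al, s.Bad al) : s.shift.shift = s := by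
  have hc : ∀ i, s.c (i + 2) = s.c i := by
    intro i
    obtain ⟨a1, a2, a3, a4⟩ := bad_facts (p := i) (hB _)
    obtain ⟨c1, c2, c3, c4⟩ := bad_facts (p := i + 1) (hB _)
    rw [show i + 1 + 2 = i + 3 by ring, show i + 1 + 3 = i + 4 by ring,
      show i + 1 + 1 = i + 2 by ring] at c1
    rw [show i + 1 + 4 = i + 5 by ring, show i + 1 + 5 = i + 6 by ring, six6, add_zero,
      show i + 1 + 1 = i + 2 by ring] at c2
    omega
  apply St.ext_lab (j := 0)
  · funext i
    change s.c (i + 1 + 1) = s.c i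
    rw [show i + 1 + 1 = i + 2 by ring, hc]
  · change s.lab (0 + 1 + 1) = s.lab 0
    rw [show (0 : ZMod (2 * 3)) + 1 + 1 = 0 + 2 by ring]
    exact (per2 (hB (par 0)) 0 rfl).2

lemma c23 (hn : Odd n) (hR : Equivalence R)
    (hshift : ∀ s, R s s.shift)
    (hgood : ∀ s i, ¬ s.Bad (par i) → s.Av i → R s (s.tog i))
    {s : St 3 cap g n} (hB : ∀ al, s.Bad al) {p p' : ZMod (2 * 3)}
    (hp : s.Av p) (hp' : s.Av p') :
    R (s.tog p) (s.tog p') := by
  have hs := b3 hB
  have h2 : ∀ i, R (s.tog (i + 2)) (s.tog i) := by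
    intro i
    have e1 : (s.tog (i + 2)).shift.shift = s.tog i := by
      rw [show i + 2 = i + 1 + 1 by ring, shift_tog, shift_tog, hs]
    have e2 := hR.trans (hshift (s.tog (i + 2))) (hshift (s.tog (i + 2)).shift)
    rw [e1] at e2
    exact e2
  have hc : ∀ i, s.c (i + 2) = s.c i := by
    intro i
    have h1 := congrArg (fun u : St 3 cap g n => u.c i) hs
    change s.c (i + 1 + 1) = s.c i at h1
    rw [← h1]
    congr 1
    ring
  have hav : ∀ i, s.Av (i + 2) ↔ s.Av i := by
    intro i
    unfold St.Av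
    rw [show i + 2 + 1 = i + 1 + 2 by ring, hc, hc]
  rcases z2_cases (par p) (par p') with hpp | hpp
  · rcases same_par hpp with rfl | rfl | rfl
    · exact hR.refl _
    · exact hR.symm (h2 p)
    · have := hR.trans (h2 (p + 2)) (h2 p)
      rw [show p + 2 + 2 = p + 4 by ring] at this
      exact hR.symm this
  · have hp3 : s.Av (p + 3) := by
      rcases diff_par hpp with rfl | rfl | rfl
      · have := (hav (p + 1)).2 hp'
        rwa [show p + 1 + 2 = p + 3 by ring] at this
      · exact hp'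
      · have := (hav (p + 3)).1 (by rw [show p + 3 + 2 = p + 5 by ring]; exact hp')
        exact this
    have e1 := c0 hn (by norm_num) hR hgood hB (q := p + 3) (par_p3 p) (ne6 p (by decide))
      (by rw [show p + 3 + 1 = p + 4 by ring]; exact ne6' p (by decide)) hp hp3
    refine hR.trans e1 ?_
    rcases diff_par hpp with rfl | rfl | rfl
    · have := h2 (p + 1)
      rwa [show p + 1 + 2 = p + 3 by ring] at this
    · exact hR.refl _
    · have := h2 (p + 3)
      rw [show p + 3 + 2 = p + 5 by ring] at this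
      exact hR.symm this

end Three

section Main

variable {h cap g n : ℕ} [NeZero h] {R : St h cap g n → St h cap g n → Prop}

lemma bad_all {s : St h cap g n} {al : ZMod 2} (h1 : s.Bad al) (h2 : s.Bad (al + 1)) :
    ∀ be, s.Bad be := by
  intro be
  rcases z2_cases al be with e | e
  · rw [e]; exact h1
  · rw [e]; exact h2

/-- every available toggle stays in the class of the relation -/
theorem step (hn : Odd n) (hcap : Odd cap) (hh : 2 ≤ h) (hcn : h = 3 → n ≤ cap)
    (hR : Equivalence R) (hshift : ∀ s, R s s.shift)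
    (hgood : ∀ s i, ¬ s.Bad (par i) → s.Av i → R s (s.tog i))
    (hf : ∀ s : St h cap g n, ∃ i, s.Av i ∧ R s (s.tog i))
    (s : St h cap g n) (p : ZMod (2 * h)) (hp : s.Av p) : R s (s.tog p) := by
  have hc2 : ∀ (s : St h cap g n), (∀ al, s.Bad al) → ∀ p p', s.Av p → s.Av p' →
      R (s.tog p) (s.tog p') := by
    intro s hB p p' hp hp'
    by_cases h3 : h = 3
    · subst h3
      exact c23 hn hR hshift hgood hB hp hp'
    · exact c2 hn hcap hh h3 hR hgood hB hp hp'
  by_cases hb : s.Bad (par p)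
  · by_cases hb1 : s.Bad (par p + 1)
    · obtain ⟨i, hi, hri⟩ := hf s
      exact hR.trans hri (hc2 s (bad_all hb hb1) i p hi hp)
    · by_cases hb2 : (s.tog p).Bad (par p + 1)
      · obtain ⟨i, hi, hri⟩ := hf (s.tog p)
        have := hR.trans hri (hc2 (s.tog p) (bad_all ((bad_tog_same s p).2 hb) hb2) i p hi
          (av_tog hp))
        rw [tog_tog] at this
        exact hR.symm this
      · by_cases h3 : h = 3
        · subst h3
          exact d2 hn (hcn rfl) hR hshift hgood hb hb1 hb2 hp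
        · exact d1 hn hcap hh h3 hR hgood hb hb1 hb2 hp
  · exact hgood s p hb hp

end Main

end Pool.OddHop
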